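import Mathlib

/-!
# Delta^1_1-comprehension over Basic Law V does not imply Sigma^1_1-choice

We build a structure `(M, S_1, S_2, ..., ∂)` which satisfies Basic Law V, arithmetical
comprehension and `Δ¹₁`-comprehension, but not `Σ¹₁`-choice.

Idea.  Let `M0` be the disjoint union of countably many cyclic orbits of each size `2^n`, let `sg`
rotate all these orbits, and let `tw` be the rotation by half a turn.  Since `M0` is universal for
permutations all whose orbits have size a power of two, there are pairing and coding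
functions (for pairs and finite tagged subsets of `M0`) which commute with `sg`.  Let `L` be the
first-order language with these functions, `tw` and the comparison of the (`sg`-invariant) rank
`rk : M0 → ℕ`, whose fibres are finite.  Each definable set `X` gets a code `kd X`, namely the code
of the finite set of all parameters of least rank which define `X` by the first formula which can
define `X`; on each definable family the code is a definable function of the parameter.
Let `N` be an ultrapower of `M0` by a nonprincipal ultrafilter on `ℕ`; the relations of the model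
are the sets definable over `N` with parameters, and `∂` is the extension of `kd`.  Basic Law V is
clear.  Arithmetical formulas define definable sets, `Σ¹₁` formulas define countable unions of
definable sets, and `Π¹₁` formulas countable intersections, so that `Δ¹₁`-comprehension follows
from `ℵ₁`-saturation of `N`.  But there is no definable function (with parameters) which selects
an element from each pair `{y, tw y}`: by Łoś's theorem there would be one in `M0`, with a parameter
fixed by some power `sg ^ (2 ^ m)`, and this permutation exchanges the elements of a pair `{y, tw y}`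
in an orbit of size `2^(m+1)`, which is impossible.  The choice instance is: for every object `x`
there is a set `P` such that, if `x` codes a pair `{y, tw y}`, then `P = {y}` for such a `y`.
-/

namespace Pool.Agent.Results.MP_4cf54b_lc.DeltaBLNotChoice

open Filter

/-! ## Definitions used in the statement -/

/-- A structure `(M, S_1, S_2, ..., ∂)` for the signature with one sort for objects, a sort for
`n`-ary relations for each `n ≥ 1`, and a function symbol `∂` from sets to objects.  The family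
`S n` consists of the relations of arity `n + 1` (so `S 0` consists of the sets), and `ext` is the
function `∂`.  Membership is actual membership. -/
structure BLStr where
  /-- the objects -/
  M : Type
  /-- the relations of arity `n + 1` -/
  S : (n : ℕ) → Set (Set (Fin (n + 1) → M))
  /-- the function `∂` -/
  ext : {X : Set (Fin 1 → M) // X ∈ S 0} → M

/-- Terms of the object sort: object variables, and `∂ X` for a set variable `X`. -/
inductive Tm : Type
  /-- the `i`-th object variable -/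
  | var (i : ℕ) : Tm
  /-- `∂ X` for the `j`-th set variable `X` -/
  | ext (j : ℕ) : Tm

/-- Formulas: equations between object terms, `R t_0 ... t_n` where `R` is the `j`-th relation
variable of arity `n + 1`, connectives, the universal quantifier over objects, and universal and
existential quantifiers over relations of arity `n + 1`. -/
inductive Fm : Type
  | eq (s t : Tm) : Fm
  | rel (n j : ℕ) (args : Fin (n + 1) → Tm) : Fm
  | neg (φ : Fm) : Fm
  | and (φ ψ : Fm) : Fm
  | all (i : ℕ) (φ : Fm) : Fm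
  | allR (n j : ℕ) (φ : Fm) : Fm
  | exR (n j : ℕ) (φ : Fm) : Fm

namespace BLStr

variable (B : BLStr)

/-- The relations of arity `n + 1` of the structure. -/
abbrev Rel (n : ℕ) : Type := {R : Set (Fin (n + 1) → B.M) // R ∈ B.S n}

/-- Assignments of values to the relation variables: the value of the `j`-th relation variable of
arity `n + 1` is `ρ n j`. -/
abbrev RAsg : Type := (n : ℕ) → ℕ → B.Rel n

/-- Change the value of the `j`-th relation variable of arity `n + 1` to `R`. -/
def upd (ρ : B.RAsg) (n j : ℕ) (R : B.Rel n) : B.RAsg :=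
  Function.update ρ n (Function.update (ρ n) j R)

/-- The value of a term. -/
def val (e : ℕ → B.M) (ρ : B.RAsg) : Tm → B.M
  | .var i => e i
  | .ext j => B.ext (ρ 0 j)

/-- Satisfaction of a formula in the structure under an assignment `e` for the object variables
and an assignment `ρ` for the relation variables. -/
def Sat : Fm → (ℕ → B.M) → B.RAsg → Prop
  | .eq s t, e, ρ => B.val e ρ s = B.val e ρ t
  | .rel n j args, e, ρ => (fun k => B.val e ρ (args k)) ∈ (ρ n j).1
  | .neg φ, e, ρ => ¬ Sat φ e ρ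
  | .and φ ψ, e, ρ => Sat φ e ρ ∧ Sat ψ e ρ
  | .all i φ, e, ρ => ∀ x : B.M, Sat φ (Function.update e i x) ρ
  | .allR n j φ, e, ρ => ∀ R : B.Rel n, Sat φ e (B.upd ρ n j R)
  | .exR n j φ, e, ρ => ∃ R : B.Rel n, Sat φ e (B.upd ρ n j R)

end BLStr

/-- Arithmetical formulas: those without bound relation variables. -/
def IsArith : Fm → Prop
  | .eq _ _ => True
  | .rel _ _ _ => True
  | .neg φ => IsArith φ
  | .and φ ψ => IsArith φ ∧ IsArith ψ
  | .all _ φ => IsArith φ
  | .allR _ _ _ => False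
  | .exR _ _ _ => False

/-- `Σ¹₁` formulas: a block of existential relation quantifiers before an arithmetical formula. -/
inductive IsSigma : Fm → Prop
  | arith {φ : Fm} : IsArith φ → IsSigma φ
  | exR {n j : ℕ} {φ : Fm} : IsSigma φ → IsSigma (.exR n j φ)

/-- `Π¹₁` formulas: a block of universal relation quantifiers before an arithmetical formula. -/
inductive IsPi : Fm → Prop
  | arith {φ : Fm} : IsArith φ → IsPi φ
  | allR {n j : ℕ} {φ : Fm} : IsPi φ → IsPi (.allR n j φ)

namespace BLStr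

variable (B : BLStr)

/-- **Basic Law V**: `∂ X = ∂ Y` if and only if `X` and `Y` have the same elements. -/
def BasicLawV : Prop :=
  ∀ X Y : B.Rel 0, B.ext X = B.ext Y ↔ ∀ x : B.M, (fun _ => x) ∈ X.1 ↔ (fun _ => x) ∈ Y.1

/-- **Arithmetical comprehension**: for each arithmetical `φ`, each list `xs` of `n + 1` distinct
object variables, and all values `e`, `ρ` of the parameters, the set of all tuples `a` such that
`φ` holds when the variables `xs` take the values `a` is a relation of the structure. -/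
def ArithComprehension : Prop :=
  ∀ φ : Fm, IsArith φ → ∀ (n : ℕ) (xs : Fin (n + 1) → ℕ), Function.Injective xs →
    ∀ (e : ℕ → B.M) (ρ : B.RAsg), ∃ R ∈ B.S n, ∀ a : Fin (n + 1) → B.M,
      a ∈ R ↔ B.Sat φ (Function.extend xs a e) ρ

/-- **`Δ¹₁`-comprehension**: the same for each `Σ¹₁` formula `φ` such that, for the given values of
the parameters, some `Π¹₁` formula `ψ` is equivalent to `φ` for all values of the variables `xs`. -/
def DeltaComprehension : Prop :=
  ∀ φ ψ : Fm, IsSigma φ → IsPi ψ → ∀ (n : ℕ) (xs : Fin (n + 1) → ℕ), Function.Injective xs →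
    ∀ (e : ℕ → B.M) (ρ : B.RAsg),
      (∀ a : Fin (n + 1) → B.M, B.Sat φ (Function.extend xs a e) ρ ↔
        B.Sat ψ (Function.extend xs a e) ρ) →
      ∃ R ∈ B.S n, ∀ a : Fin (n + 1) → B.M, a ∈ R ↔ B.Sat φ (Function.extend xs a e) ρ

/-- **`Σ¹₁`-choice**: for each `Σ¹₁` formula `φ`, each list `xs` of `k + 1` distinct object
variables, the `j`-th relation variable `P` of arity `m + 1`, and all values of the parameters: if
for each tuple `a` of values of `xs` there is a `P` such that `φ(a, P)`, then there is a relation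
`R` of arity `(k + 1) + (m + 1)` such that, for all `a` and `P`, if `P` is the section of `R` at
`a`, then `φ(a, P)`. -/
def SigmaChoice : Prop :=
  ∀ φ : Fm, IsSigma φ → ∀ (k m j : ℕ) (xs : Fin (k + 1) → ℕ), Function.Injective xs →
    ∀ (e : ℕ → B.M) (ρ : B.RAsg),
      (∀ a : Fin (k + 1) → B.M, ∃ P : B.Rel m,
        B.Sat φ (Function.extend xs a e) (B.upd ρ m j P)) →
      ∃ R ∈ B.S (k + 1 + m), ∀ (a : Fin (k + 1) → B.M) (P : B.Rel m),
        (∀ b : Fin (m + 1) → B.M, b ∈ P.1 ↔ Fin.append a b ∈ R) →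
          B.Sat φ (Function.extend xs a e) (B.upd ρ m j P)

end BLStr

/-! ## The base structure -/

/-- the base set: `ℕ` copies of cyclic orbits of each size `2^n` -/
abbrev M0 : Type := ℕ × (Σ n : ℕ, ZMod (2 ^ n))

/-- the automorphism: rotate all orbits -/
def sg : Equiv.Perm M0 where
  toFun z := (z.1, ⟨z.2.1, z.2.2 + 1⟩)
  invFun z := (z.1, ⟨z.2.1, z.2.2 - 1⟩)
  left_inv z := by simp
  right_inv z := by simp

theorem sg_pow (m : ℕ) (z : M0) : (sg ^ m) z = (z.1, ⟨z.2.1, z.2.2 + m⟩) := by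
  induction m with
  | zero => simp
  | succ m ih =>
    rw [pow_succ', Equiv.Perm.mul_apply, ih]
    simp [sg, add_assoc]

theorem sg_periodic (z : M0) : (sg ^ (2 ^ z.2.1)) z = z := by
  rw [sg_pow]
  have : ((2 ^ z.2.1 : ℕ) : ZMod (2 ^ z.2.1)) = 0 := ZMod.natCast_self _
  rw [this, add_zero]

theorem exists_periodic (z : M0) : ∃ n : ℕ, (sg ^ (2 ^ n)) z = z := ⟨z.2.1, sg_periodic z⟩

/-- Universality of `M0`. -/
theorem univ_lemma {D : Type} [Countable D] (τ : Equiv.Perm D)
    (hτ : ∀ d, ∃ n : ℕ, (τ ^ (2 ^ n)) d = d) :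
    ∃ f : D → M0, Function.Injective f ∧ ∀ d, f (τ d) = sg (f d) := by
  classical
  -- the period is a power of two
  have hper : ∀ d, ∃ k : ℕ, Function.minimalPeriod τ d = 2 ^ k := by
    intro d
    obtain ⟨n, hn⟩ := hτ d
    have h1 : Function.IsPeriodicPt τ (2 ^ n) d := by
      show (τ^[2 ^ n]) d = d
      rw [← Equiv.Perm.iterate_eq_pow] at hn
      exact hn
    obtain ⟨k, _, hk⟩ := (Nat.dvd_prime_pow Nat.prime_two).mp h1.minimalPeriod_dvd
    exact ⟨k, hk⟩
  choose k hk using hper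
  let st : Setoid D := Equiv.Perm.SameCycle.setoid τ
  let rep : D → D := fun d => (Quotient.mk st d).out
  have hrep : ∀ d, Equiv.Perm.SameCycle τ (rep d) d := by
    intro d
    exact Quotient.exact (Quotient.out_eq (Quotient.mk st d))
  have hex : ∀ d, ∃ m : ℤ, (τ ^ m) (rep d) = d := fun d => hrep d
  choose m hm using hex
  have hmk : ∀ d, Quotient.mk st (τ d) = Quotient.mk st d := by
    intro d
    apply Quotient.sound
    show Equiv.Perm.SameCycle τ (τ d) d
    exact ⟨-1, by simp⟩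
  have hrepτ : ∀ d, rep (τ d) = rep d := by
    intro d
    show (Quotient.mk st (τ d)).out = (Quotient.mk st d).out
    rw [hmk]
  obtain ⟨enc, henc⟩ := exists_injective_nat (Quotient st)
  -- comparison of exponents
  have hcmp : ∀ (r : D) (a b : ℤ), (τ ^ a) r = (τ ^ b) r ↔ ((a : ZMod (2 ^ k r)) = b) := by
    intro r a b
    have h1 : (τ ^ a) r = (τ ^ b) r ↔ (τ ^ (b - a)) r = r := by
      rw [sub_eq_neg_add, zpow_add, Equiv.Perm.mul_apply, zpow_neg, Equiv.Perm.inv_eq_iff_eq]
      exact eq_comm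
    have h2 : (τ ^ (b - a)) r = r ↔ (Function.minimalPeriod τ r : ℤ) ∣ (b - a) := by
      have := MulAction.zpow_smul_eq_iff_minimalPeriod_dvd (a := τ) (b := r) (n := b - a)
      exact this
    rw [h1, h2, hk, ZMod.intCast_eq_intCast_iff_dvd_sub]
  refine ⟨fun d => (enc (Quotient.mk st d), ⟨k (rep d), (m d : ZMod (2 ^ k (rep d)))⟩), ?_, ?_⟩
  · intro d d' h
    simp only [Prod.mk.injEq] at h
    obtain ⟨h1, h2⟩ := h
    have hq := henc h1
    have hr : rep d = rep d' := by
      show (Quotient.mk st d).out = (Quotient.mk st d').out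
      rw [hq]
    have h3 : ((m d : ℤ) : ZMod (2 ^ k (rep d))) = ((m d' : ℤ) : ZMod (2 ^ k (rep d))) := by
      rw [← hr] at h2
      simpa using h2
    have h4 := (hcmp (rep d) (m d) (m d')).mpr h3
    rw [hm d] at h4
    rw [hr, hm d'] at h4
    exact h4
  · intro d
    show (enc (Quotient.mk st (τ d)), (⟨k (rep (τ d)), (m (τ d) : ZMod (2 ^ k (rep (τ d))))⟩ :
      Σ n : ℕ, ZMod (2 ^ n))) = (enc (Quotient.mk st d), ⟨k (rep d),
        (m d : ZMod (2 ^ k (rep d))) + 1⟩)
    rw [hmk, hrepτ]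
    congr 2
    have h1 : (τ ^ (m (τ d))) (rep d) = (τ ^ (m d + 1)) (rep d) := by
      have h2 := hm (τ d)
      rw [hrepτ] at h2
      rw [h2, add_comm, zpow_add, Equiv.Perm.mul_apply, hm d, zpow_one]
    have := (hcmp (rep d) (m (τ d)) (m d + 1)).mp h1
    rw [this]; push_cast; rfl

/-- swap partner -/
def tw (z : M0) : M0 := (z.1, ⟨z.2.1, z.2.2 + ((2 ^ (z.2.1 - 1) : ℕ) : ZMod (2 ^ z.2.1))⟩)

theorem tw_sg (z : M0) : tw (sg z) = sg (tw z) := by
  show ((z.1, ⟨z.2.1, (z.2.2 + 1) + ((2 ^ (z.2.1 - 1) : ℕ) : ZMod (2 ^ z.2.1))⟩) : M0) =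
    (z.1, ⟨z.2.1, (z.2.2 + ((2 ^ (z.2.1 - 1) : ℕ) : ZMod (2 ^ z.2.1))) + 1⟩)
  rw [add_right_comm]

/-- the rank function -/
def rk (z : M0) : ℕ := z.1 + z.2.1

theorem rk_sg (z : M0) : rk (sg z) = rk z := rfl

theorem rk_finite (r : ℕ) : {z : M0 | rk z = r}.Finite := by
  have h : {z : M0 | rk z = r} ⊆
      ⋃ j ∈ Finset.range (r + 1), ⋃ n ∈ Finset.range (r + 1),
        Set.range (fun a : ZMod (2 ^ n) => ((j, ⟨n, a⟩) : M0)) := by
    rintro ⟨j, n, a⟩ h
    simp only [rk, Set.mem_ofPred_eq] at h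
    simp only [Set.mem_iUnion, Finset.mem_range, Set.mem_range]
    exact ⟨j, by omega, n, by omega, a, rfl⟩
  apply Set.Finite.subset _ h
  apply Set.Finite.biUnion (Finset.finite_toSet _)
  intro j _
  apply Set.Finite.biUnion (Finset.finite_toSet _)
  intro n _
  have : NeZero (2 ^ n) := ⟨by positivity⟩
  exact Set.finite_range _

/-- The type of things to be coded. -/
abbrev CD : Type := (M0 × M0) ⊕ (ℕ × Finset M0)

/-- action on things to be coded -/
def sgCD : Equiv.Perm CD :=
  Equiv.sumCongr (Equiv.prodCongr sg sg)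
    (Equiv.prodCongr (Equiv.refl ℕ) (Equiv.finsetCongr sg))

theorem sgCD_inl (a b : M0) : sgCD (Sum.inl (a, b)) = Sum.inl (sg a, sg b) := rfl
theorem sgCD_inr (i : ℕ) (A : Finset M0) : sgCD (Sum.inr (i, A)) = Sum.inr (i, A.map sg.toEmbedding) := rfl

theorem pow_two_pow_mul {D : Type} (τ : Equiv.Perm D) {n m : ℕ} (h : n ≤ m) {d : D}
    (hd : (τ ^ (2 ^ n)) d = d) : (τ ^ (2 ^ m)) d = d := by
  obtain ⟨l, rfl⟩ := Nat.exists_eq_add_of_le h
  rw [pow_add, pow_mul]
  exact Equiv.Perm.pow_apply_eq_self_of_apply_eq_self hd _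

theorem sgCD_pow_inl (m : ℕ) (a b : M0) :
    (sgCD ^ m) (Sum.inl (a, b)) = Sum.inl ((sg ^ m) a, (sg ^ m) b) := by
  induction m with
  | zero => rfl
  | succ m ih => rw [pow_succ', Equiv.Perm.mul_apply, ih, sgCD_inl, pow_succ']; rfl

theorem sgCD_pow_inr (m : ℕ) (i : ℕ) (A : Finset M0) :
    (sgCD ^ m) (Sum.inr (i, A)) = Sum.inr (i, A.map (sg ^ m).toEmbedding) := by
  induction m with
  | zero =>
    simp only [pow_zero, Equiv.Perm.one_apply]
    rw [show ((1 : Equiv.Perm M0).toEmbedding) = Function.Embedding.refl _ from rfl,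
      Finset.map_refl]
  | succ m ih =>
    rw [pow_succ', Equiv.Perm.mul_apply, ih, sgCD_inr, pow_succ', Finset.map_map]
    rfl

theorem sgCD_periodic (d : CD) : ∃ n : ℕ, (sgCD ^ (2 ^ n)) d = d := by
  classical
  rcases d with ⟨a, b⟩ | ⟨i, A⟩
  · refine ⟨max a.2.1 b.2.1, ?_⟩
    rw [sgCD_pow_inl, pow_two_pow_mul sg (le_max_left _ _) (sg_periodic a),
      pow_two_pow_mul sg (le_max_right _ _) (sg_periodic b)]
  · refine ⟨A.sup (fun z => z.2.1), ?_⟩
    rw [sgCD_pow_inr]
    congr 2
    ext x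
    simp only [Finset.mem_map, Equiv.coe_toEmbedding]
    constructor
    · rintro ⟨a, ha, rfl⟩
      rwa [pow_two_pow_mul sg (Finset.le_sup (f := fun z : M0 => z.2.1) ha) (sg_periodic a)]
    · intro hx
      exact ⟨x, hx, pow_two_pow_mul sg (Finset.le_sup (f := fun z : M0 => z.2.1) hx) (sg_periodic x)⟩

theorem exists_coding : ∃ f : CD → M0, Function.Injective f ∧ ∀ d, f (sgCD d) = sg (f d) :=
  univ_lemma sgCD sgCD_periodic

/-- the coding function -/
noncomputable def cdf : CD → M0 := exists_coding.choose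
theorem cdf_inj : Function.Injective cdf := exists_coding.choose_spec.1
theorem cdf_sg (d : CD) : cdf (sgCD d) = sg (cdf d) := exists_coding.choose_spec.2 d

/-- pairing -/
noncomputable def pr (a b : M0) : M0 := cdf (Sum.inl (a, b))
/-- first component -/
noncomputable def fs (z : M0) : M0 := by
  classical
  exact if h : ∃ ab : M0 × M0, cdf (Sum.inl ab) = z then h.choose.1 else z
/-- second component -/
noncomputable def sn (z : M0) : M0 := by
  classical
  exact if h : ∃ ab : M0 × M0, cdf (Sum.inl ab) = z then h.choose.2 else z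
/-- set code with tag -/
noncomputable def sc (i : ℕ) (A : Finset M0) : M0 := cdf (Sum.inr (i, A))
/-- tagged membership -/
def mm (i : ℕ) (x z : M0) : Prop := ∃ A : Finset M0, z = sc i A ∧ x ∈ A

theorem pr_spec (a b : M0) : fs (pr a b) = a ∧ sn (pr a b) = b := by
  have h : ∃ ab : M0 × M0, cdf (Sum.inl ab) = pr a b := ⟨(a, b), rfl⟩
  have h2 : h.choose = (a, b) := by
    have := cdf_inj (h.choose_spec : cdf (Sum.inl h.choose) = cdf (Sum.inl (a, b)))
    exact Sum.inl_injective this
  constructor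
  · unfold fs; rw [dif_pos h, h2]
  · unfold sn; rw [dif_pos h, h2]

theorem pr_sg (a b : M0) : pr (sg a) (sg b) = sg (pr a b) := by
  unfold pr; rw [← cdf_sg, sgCD_inl]

theorem sc_sg (i : ℕ) (A : Finset M0) : sc i (A.map sg.toEmbedding) = sg (sc i A) := by
  unfold sc; rw [← cdf_sg, sgCD_inr]

theorem sc_inj {i j : ℕ} {A B : Finset M0} (h : sc i A = sc j B) : i = j ∧ A = B := by
  have := Sum.inr_injective (cdf_inj h)
  exact Prod.mk.inj this

theorem mm_sc (i : ℕ) (x : M0) (A : Finset M0) : mm i x (sc i A) ↔ x ∈ A := by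
  constructor
  · rintro ⟨B, hB, hx⟩
    rw [(sc_inj hB).2]; exact hx
  · intro h; exact ⟨A, rfl, h⟩

theorem fs_sg (z : M0) : fs (sg z) = sg (fs z) := by
  by_cases h : ∃ ab : M0 × M0, cdf (Sum.inl ab) = z
  · obtain ⟨⟨a, b⟩, rfl⟩ := h
    have e1 : fs (cdf (Sum.inl (a, b))) = a := (pr_spec a b).1
    have e2 : sg (cdf (Sum.inl (a, b))) = pr (sg a) (sg b) := (pr_sg a b).symm
    rw [e1, e2, (pr_spec _ _).1]
  · have h' : ¬ ∃ ab : M0 × M0, cdf (Sum.inl ab) = sg z := by
      rintro ⟨⟨a, b⟩, hab⟩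
      apply h
      refine ⟨(sg.symm a, sg.symm b), ?_⟩
      apply sg.injective
      rw [← hab, ← cdf_sg, sgCD_inl]; simp
    unfold fs
    rw [dif_neg h, dif_neg h']

theorem sn_sg (z : M0) : sn (sg z) = sg (sn z) := by
  by_cases h : ∃ ab : M0 × M0, cdf (Sum.inl ab) = z
  · obtain ⟨⟨a, b⟩, rfl⟩ := h
    have e1 : sn (cdf (Sum.inl (a, b))) = b := (pr_spec a b).2
    have e2 : sg (cdf (Sum.inl (a, b))) = pr (sg a) (sg b) := (pr_sg a b).symm
    rw [e1, e2, (pr_spec _ _).2]
  · have h' : ¬ ∃ ab : M0 × M0, cdf (Sum.inl ab) = sg z := by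
      rintro ⟨⟨a, b⟩, hab⟩
      apply h
      refine ⟨(sg.symm a, sg.symm b), ?_⟩
      apply sg.injective
      rw [← hab, ← cdf_sg, sgCD_inl]; simp
    unfold sn
    rw [dif_neg h, dif_neg h']

theorem mm_sg (i : ℕ) (x z : M0) : mm i (sg x) (sg z) ↔ mm i x z := by
  constructor
  · rintro ⟨A, hA, hx⟩
    refine ⟨A.map sg.symm.toEmbedding, ?_, ?_⟩
    · apply sg.injective
      rw [hA, ← sc_sg, Finset.map_map]
      congr 1
      ext y; simp
    · rw [Finset.mem_map_equiv]; simpa using hx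
  · rintro ⟨A, rfl, hx⟩
    refine ⟨A.map sg.toEmbedding, (sc_sg i A).symm, ?_⟩
    rw [Finset.mem_map_equiv]; simpa using hx

/-! ## The auxiliary first-order language and the ultrapower -/

/-- Terms of the auxiliary first-order language. -/
inductive Tr : Type
  | var (v : ℕ) : Tr
  | fs (t : Tr) : Tr
  | sn (t : Tr) : Tr
  | tw (t : Tr) : Tr
  | pr (t u : Tr) : Tr
  deriving Countable

/-- Formulas of the auxiliary first-order language (with simultaneous substitution). -/
inductive Cd : Type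
  | eq (t u : Tr) : Cd
  | mm (i : ℕ) (t u : Tr) : Cd
  | le (t u : Tr) : Cd
  | neg (c : Cd) : Cd
  | and (c d : Cd) : Cd
  | ex (v : ℕ) (c : Cd) : Cd
  | sub (d : Tr) (l : List Tr) (c : Cd) : Cd
  deriving Countable

/-- interpretations of the symbols -/
structure Ops (M : Type) where
  fs : M → M
  sn : M → M
  tw : M → M
  pr : M → M → M
  mm : ℕ → M → M → Prop
  le : M → M → Prop

variable {M : Type}

/-- evaluation of terms -/
def Tr.ev (O : Ops M) (s : ℕ → M) : Tr → M
  | .var v => s v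
  | .fs t => O.fs (t.ev O s)
  | .sn t => O.sn (t.ev O s)
  | .tw t => O.tw (t.ev O s)
  | .pr t u => O.pr (t.ev O s) (u.ev O s)

/-- evaluation of formulas -/
def Cd.ev (O : Ops M) : Cd → (ℕ → M) → Prop
  | .eq t u, s => t.ev O s = u.ev O s
  | .mm i t u, s => O.mm i (t.ev O s) (u.ev O s)
  | .le t u, s => O.le (t.ev O s) (u.ev O s)
  | .neg c, s => ¬ c.ev O s
  | .and c d, s => c.ev O s ∧ d.ev O s
  | .ex v c, s => ∃ x : M, c.ev O (Function.update s v x)
  | .sub d l c, s => c.ev O (fun v => (l.getD v d).ev O s)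

/-- The operations on `M0`. -/
noncomputable def O0 : Ops M0 where
  fs := DeltaBLNotChoice.fs
  sn := DeltaBLNotChoice.sn
  tw := DeltaBLNotChoice.tw
  pr := DeltaBLNotChoice.pr
  mm := DeltaBLNotChoice.mm
  le a b := rk a ≤ rk b

/-- the ultrapower -/
abbrev N : Type := Germ (hyperfilter ℕ : Filter ℕ) M0

/-- The operations on the ultrapower. -/
noncomputable def ON : Ops N where
  fs := Germ.map DeltaBLNotChoice.fs
  sn := Germ.map DeltaBLNotChoice.sn
  tw := Germ.map DeltaBLNotChoice.tw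
  pr := Germ.map₂ DeltaBLNotChoice.pr
  mm i := Germ.LiftRel (DeltaBLNotChoice.mm i)
  le := Germ.LiftRel (fun a b => rk a ≤ rk b)

/-- chosen representatives -/
noncomputable def lf (x : N) : ℕ → M0 := Quotient.out x

theorem coe_lf (x : N) : ((lf x : ℕ → M0) : N) = x := Quotient.out_eq x

theorem lf_coe (f : ℕ → M0) : ∀ᶠ i in (hyperfilter ℕ : Filter ℕ), lf (f : N) i = f i := by
  have : ((lf (f : N) : ℕ → M0) : N) = (f : N) := coe_lf _
  exact Germ.coe_eq.mp this

theorem eq_iff (x y : N) : x = y ↔ ∀ᶠ i in (hyperfilter ℕ : Filter ℕ), lf x i = lf y i := by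
  conv_lhs => rw [← coe_lf x, ← coe_lf y]
  exact Germ.coe_eq

theorem lf_map (f : M0 → M0) (x : N) :
    ∀ᶠ i in (hyperfilter ℕ : Filter ℕ), lf (Germ.map f x) i = f (lf x i) := by
  have h : Germ.map f x = ((fun i => f (lf x i) : ℕ → M0) : N) := by
    conv_lhs => rw [← coe_lf x]
    rfl
  rw [h]
  exact lf_coe _

theorem lf_map₂ (f : M0 → M0 → M0) (x y : N) :
    ∀ᶠ i in (hyperfilter ℕ : Filter ℕ), lf (Germ.map₂ f x y) i = f (lf x i) (lf y i) := by
  have h : Germ.map₂ f x y = ((fun i => f (lf x i) (lf y i) : ℕ → M0) : N) := by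
    conv_lhs => rw [← coe_lf x, ← coe_lf y]
    rfl
  rw [h]
  exact lf_coe _

theorem liftRel_iff (r : M0 → M0 → Prop) (x y : N) :
    Germ.LiftRel r x y ↔ ∀ᶠ i in (hyperfilter ℕ : Filter ℕ), r (lf x i) (lf y i) := by
  conv_lhs => rw [← coe_lf x, ← coe_lf y]
  exact Germ.liftRel_coe

/-- The lift of an assignment at an index. -/
noncomputable def la (s : ℕ → N) (i : ℕ) : ℕ → M0 := fun v => lf (s v) i

theorem lf_tr (t : Tr) (s : ℕ → N) :
    ∀ᶠ i in (hyperfilter ℕ : Filter ℕ), lf (t.ev ON s) i = t.ev O0 (la s i) := by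
  induction t with
  | var v => exact Eventually.of_forall (fun i => rfl)
  | fs t ih =>
    filter_upwards [ih, lf_map DeltaBLNotChoice.fs (t.ev ON s)] with i h1 h2
    show lf (Germ.map DeltaBLNotChoice.fs (t.ev ON s)) i = DeltaBLNotChoice.fs (t.ev O0 (la s i))
    rw [h2, h1]
  | sn t ih =>
    filter_upwards [ih, lf_map DeltaBLNotChoice.sn (t.ev ON s)] with i h1 h2
    show lf (Germ.map DeltaBLNotChoice.sn (t.ev ON s)) i = DeltaBLNotChoice.sn (t.ev O0 (la s i))
    rw [h2, h1]
  | tw t ih =>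
    filter_upwards [ih, lf_map DeltaBLNotChoice.tw (t.ev ON s)] with i h1 h2
    show lf (Germ.map DeltaBLNotChoice.tw (t.ev ON s)) i = DeltaBLNotChoice.tw (t.ev O0 (la s i))
    rw [h2, h1]
  | pr t u iht ihu =>
    filter_upwards [iht, ihu, lf_map₂ DeltaBLNotChoice.pr (t.ev ON s) (u.ev ON s)] with i h1 h2 h3
    show lf (Germ.map₂ DeltaBLNotChoice.pr (t.ev ON s) (u.ev ON s)) i = DeltaBLNotChoice.pr (t.ev O0 (la s i)) (u.ev O0 (la s i))
    rw [h3, h1, h2]

theorem la_update (s : ℕ → N) (v : ℕ) (y : N) (i : ℕ) :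
    la (Function.update s v y) i = Function.update (la s i) v (lf y i) := by
  funext w
  unfold la
  by_cases h : w = v
  · subst h; simp
  · simp [Function.update_of_ne h]

/-- Łoś's theorem for the auxiliary language. -/
theorem los (c : Cd) : ∀ s : ℕ → N,
    c.ev ON s ↔ ∀ᶠ i in (hyperfilter ℕ : Filter ℕ), c.ev O0 (la s i) := by
  induction c with
  | eq t u =>
    intro s
    show t.ev ON s = u.ev ON s ↔ _
    rw [eq_iff]
    constructor
    · intro h
      filter_upwards [h, lf_tr t s, lf_tr u s] with i h1 h2 h3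
      show t.ev O0 (la s i) = u.ev O0 (la s i)
      rw [← h2, ← h3, h1]
    · intro h
      filter_upwards [h, lf_tr t s, lf_tr u s] with i h1 h2 h3
      rw [h2, h3]; exact h1
  | mm j t u =>
    intro s
    show Germ.LiftRel (DeltaBLNotChoice.mm j) (t.ev ON s) (u.ev ON s) ↔ _
    rw [liftRel_iff]
    constructor
    · intro h
      filter_upwards [h, lf_tr t s, lf_tr u s] with i h1 h2 h3
      show DeltaBLNotChoice.mm j (t.ev O0 (la s i)) (u.ev O0 (la s i))
      rw [← h2, ← h3]; exact h1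
    · intro h
      filter_upwards [h, lf_tr t s, lf_tr u s] with i h1 h2 h3
      rw [h2, h3]; exact h1
  | le t u =>
    intro s
    show Germ.LiftRel (fun a b => rk a ≤ rk b) (t.ev ON s) (u.ev ON s) ↔ _
    rw [liftRel_iff]
    constructor
    · intro h
      filter_upwards [h, lf_tr t s, lf_tr u s] with i h1 h2 h3
      show rk (t.ev O0 (la s i)) ≤ rk (u.ev O0 (la s i))
      rw [← h2, ← h3]; exact h1
    · intro h
      filter_upwards [h, lf_tr t s, lf_tr u s] with i h1 h2 h3
      rw [h2, h3]; exact h1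
  | neg c ih =>
    intro s
    show ¬ c.ev ON s ↔ _
    rw [ih s, ← Ultrafilter.eventually_not]
    rfl
  | and c d ihc ihd =>
    intro s
    show c.ev ON s ∧ d.ev ON s ↔ _
    rw [ihc s, ihd s, ← Filter.eventually_and]
    rfl
  | ex v c ih =>
    intro s
    show (∃ x : N, c.ev ON (Function.update s v x)) ↔
      ∀ᶠ i in (hyperfilter ℕ : Filter ℕ), ∃ x : M0, c.ev O0 (Function.update (la s i) v x)
    constructor
    · rintro ⟨x, hx⟩
      rw [ih] at hx
      filter_upwards [hx] with i hi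
      rw [la_update] at hi
      exact ⟨_, hi⟩
    · intro h
      classical
      have hch : ∀ i, ∃ x : M0, (∃ y : M0, c.ev O0 (Function.update (la s i) v y)) →
          c.ev O0 (Function.update (la s i) v x) := by
        intro i
        by_cases hy : ∃ y : M0, c.ev O0 (Function.update (la s i) v y)
        · obtain ⟨y, hy⟩ := hy
          exact ⟨y, fun _ => hy⟩
        · exact ⟨(0, ⟨0, 0⟩), fun h => absurd h hy⟩
      choose x hx using hch
      refine ⟨(x : N), ?_⟩
      rw [ih]
      filter_upwards [h, lf_coe x] with i h1 h2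
      rw [la_update, h2]
      exact hx i h1
  | sub d l c ih =>
    intro s
    show c.ev ON (fun v => (l.getD v d).ev ON s) ↔
      ∀ᶠ i in (hyperfilter ℕ : Filter ℕ), c.ev O0 (fun v => (l.getD v d).ev O0 (la s i))
    rw [ih]
    have key : ∀ᶠ i in (hyperfilter ℕ : Filter ℕ),
        la (fun v => (l.getD v d).ev ON s) i = fun v => (l.getD v d).ev O0 (la s i) := by
      have h1 : ∀ᶠ i in (hyperfilter ℕ : Filter ℕ), ∀ t ∈ d :: l,
          lf (t.ev ON s) i = t.ev O0 (la s i) := by
        have : ∀ l' : List Tr, ∀ᶠ i in (hyperfilter ℕ : Filter ℕ), ∀ t ∈ l',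
            lf (t.ev ON s) i = t.ev O0 (la s i) := by
          intro l'
          induction l' with
          | nil => exact Eventually.of_forall (fun i t ht => absurd ht (by simp))
          | cons a l' ih' =>
            filter_upwards [ih', lf_tr a s] with i h1 h2
            intro t ht
            rcases List.mem_cons.mp ht with rfl | ht
            · exact h2
            · exact h1 t ht
        exact this _
      filter_upwards [h1] with i hi
      funext v
      show lf ((l.getD v d).ev ON s) i = (l.getD v d).ev O0 (la s i)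
      apply hi
      rw [List.getD_eq_getElem?_getD]
      rcases h : l[v]? with _ | a
      · simp
      · simp only [Option.getD_some]
        exact List.mem_cons_of_mem _ (List.mem_of_getElem? h)
    constructor
    · intro h
      filter_upwards [h, key] with i h1 h2
      rw [← h2]; exact h1
    · intro h
      filter_upwards [h, key] with i h1 h2
      rw [h2]; exact h1

noncomputable section

/-! ## Codes of definable sets -/

instance : Nonempty Cd := ⟨Cd.eq (.var 0) (.var 0)⟩

/-- an enumeration of all codes -/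
noncomputable def cd : ℕ → Cd := (exists_surjective_nat Cd).choose
theorem cd_surj : Function.Surjective cd := (exists_surjective_nat Cd).choose_spec

/-- the assignment with parameter `p` and arguments `a` in the variables `1, …, n+1` -/
def asg {n : ℕ} (p : M) (a : Fin (n + 1) → M) : ℕ → M :=
  fun v => if h : 0 < v ∧ v - 1 < n + 1 then a ⟨v - 1, h.2⟩ else p

/-- the `i`-th family of sets -/
def fam (O : Ops M) (i : ℕ) (p : M) : Set M := {x | (cd i).ev O (asg (n := 0) p (fun _ => x))}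

theorem asg_one (p x : M) : asg (n := 0) p (fun _ => x) = fun v => if v = 1 then x else p := by
  funext v
  unfold asg
  by_cases h : v = 1
  · subst h; simp
  · rw [dif_neg (by omega), if_neg h]

/-! Logical abbreviations. -/
def Cd.imp (c d : Cd) : Cd := .neg (.and c (.neg d))
def Cd.iff (c d : Cd) : Cd := .and (c.imp d) (d.imp c)
def Cd.all (v : ℕ) (c : Cd) : Cd := .neg (.ex v (.neg c))
def Cd.or (c d : Cd) : Cd := .neg (.and (.neg c) (.neg d))
def Cd.bot : Cd := .and (.eq (.var 0) (.var 0)) (.neg (.eq (.var 0) (.var 0)))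
def Cd.bor : ℕ → (ℕ → Cd) → Cd
  | 0, _ => .bot
  | n + 1, f => .or (Cd.bor n f) (f n)
def Cd.band (n : ℕ) (f : ℕ → Cd) : Cd := .neg (Cd.bor n (fun k => .neg (f k)))

theorem ev_imp (O : Ops M) (c d : Cd) (s : ℕ → M) : (c.imp d).ev O s ↔ (c.ev O s → d.ev O s) := by
  show ¬ (c.ev O s ∧ ¬ d.ev O s) ↔ _
  tauto
theorem ev_iff (O : Ops M) (c d : Cd) (s : ℕ → M) : (c.iff d).ev O s ↔ (c.ev O s ↔ d.ev O s) := by
  show (c.imp d).ev O s ∧ (d.imp c).ev O s ↔ _
  rw [ev_imp, ev_imp]; tauto
theorem ev_all (O : Ops M) (v : ℕ) (c : Cd) (s : ℕ → M) :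
    (c.all v).ev O s ↔ ∀ x, c.ev O (Function.update s v x) := by
  show ¬ (∃ x, ¬ c.ev O (Function.update s v x)) ↔ _
  push Not; rfl
theorem ev_or (O : Ops M) (c d : Cd) (s : ℕ → M) : (c.or d).ev O s ↔ (c.ev O s ∨ d.ev O s) := by
  show ¬ (¬ c.ev O s ∧ ¬ d.ev O s) ↔ _
  tauto
theorem ev_bot (O : Ops M) (s : ℕ → M) : ¬ Cd.bot.ev O s := by
  show ¬ (_ ∧ ¬ _)
  tauto
theorem ev_bor (O : Ops M) (n : ℕ) (f : ℕ → Cd) (s : ℕ → M) :
    (Cd.bor n f).ev O s ↔ ∃ k < n, (f k).ev O s := by
  induction n with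
  | zero => simp [Cd.bor, ev_bot]
  | succ n ih =>
    show (Cd.or (Cd.bor n f) (f n)).ev O s ↔ _
    rw [ev_or, ih]
    constructor
    · rintro (⟨k, hk, h⟩ | h)
      · exact ⟨k, by omega, h⟩
      · exact ⟨n, by omega, h⟩
    · rintro ⟨k, hk, h⟩
      rcases Nat.lt_succ_iff_lt_or_eq.mp hk with h' | rfl
      · exact Or.inl ⟨k, h', h⟩
      · exact Or.inr h
theorem ev_band (O : Ops M) (n : ℕ) (f : ℕ → Cd) (s : ℕ → M) :
    (Cd.band n f).ev O s ↔ ∀ k < n, (f k).ev O s := by
  show ¬ (Cd.bor n (fun k => .neg (f k))).ev O s ↔ _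
  rw [ev_bor]
  push Not
  constructor
  · intro h k hk
    have := h k hk
    exact not_not.mp this
  · intro h k hk
    exact not_not.mpr (h k hk)

/-- the relation `x ∈ fam i p` -/
def UU (i P X : ℕ) : Cd := .sub (.var P) [.var P, .var X] (cd i)

theorem ev_UU (O : Ops M) (i P X : ℕ) (s : ℕ → M) : (UU i P X).ev O s ↔ s X ∈ fam O i (s P) := by
  show (cd i).ev O (fun v => (([.var P, .var X] : List Tr).getD v (.var P)).ev O s) ↔
    (cd i).ev O (asg (n := 0) (s P) (fun _ => s X))
  rw [asg_one]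
  have : (fun v => (([.var P, .var X] : List Tr).getD v (.var P)).ev O s) =
      fun v => if v = 1 then s X else s P := by
    funext v
    rcases v with _ | _ | v
    · rfl
    · rfl
    · simp [Tr.ev]
  rw [this]

/-- the relation `fam i q = fam j p` -/
def same (i q j p : ℕ) : Cd := .all 4 (.iff (UU i q 4) (UU j p 4))

theorem ev_same (O : Ops M) (i q j p : ℕ) (hq : q ≠ 4) (hp : p ≠ 4) (s : ℕ → M) :
    (same i q j p).ev O s ↔ fam O i (s q) = fam O j (s p) := by
  unfold same
  rw [ev_all]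
  constructor
  · intro h
    ext x
    have := h x
    rw [ev_iff, ev_UU, ev_UU] at this
    simpa [Function.update_of_ne hq, Function.update_of_ne hp] using this
  · intro h x
    rw [ev_iff, ev_UU, ev_UU]
    simp [Function.update_of_ne hq, Function.update_of_ne hp, h]

/-- the set of parameters of least rank defining `X` by the code `j` -/
def reps (j : ℕ) (X : Set M0) : Set M0 :=
  {q | fam O0 j q = X ∧ ∀ q', fam O0 j q' = X → rk q ≤ rk q'}

theorem reps_finite (j : ℕ) (X : Set M0) : (reps j X).Finite := by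
  by_cases h : ∃ q, q ∈ reps j X
  · obtain ⟨q, hq⟩ := h
    apply (rk_finite (rk q)).subset
    intro q' hq'
    exact le_antisymm (hq'.2 q hq.1) (hq.2 q' hq'.1)
  · have : reps j X = ∅ := Set.eq_empty_iff_forall_notMem.mpr (fun x hx => h ⟨x, hx⟩)
    rw [this]; exact Set.finite_empty

theorem reps_nonempty (j : ℕ) (X : Set M0) (h : ∃ q, fam O0 j q = X) : (reps j X).Nonempty := by
  classical
  have hne : ∃ r, ∃ q, fam O0 j q = X ∧ rk q = r := by
    obtain ⟨q, hq⟩ := h
    exact ⟨_, q, hq, rfl⟩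
  obtain ⟨q, hq, hr⟩ := Nat.find_spec hne
  refine ⟨q, hq, fun q' hq' => ?_⟩
  rw [hr]
  exact Nat.find_min' hne ⟨q', hq', rfl⟩

open Classical in
/-- the code of a definable set -/
noncomputable def kd (X : Set M0) : M0 :=
  if h : ∃ j, ∃ q, fam O0 j q = X then sc (Nat.find h) (reps_finite (Nat.find h) X).toFinset
  else (0, ⟨0, 0⟩)

theorem kd_inj {i j : ℕ} {p q : M0} (h : kd (fam O0 i p) = kd (fam O0 j q)) :
    fam O0 i p = fam O0 j q := by
  classical
  have h1 : ∃ k, ∃ r, fam O0 k r = fam O0 i p := ⟨i, p, rfl⟩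
  have h2 : ∃ k, ∃ r, fam O0 k r = fam O0 j q := ⟨j, q, rfl⟩
  unfold kd at h
  rw [dif_pos h1, dif_pos h2] at h
  obtain ⟨h3, h4⟩ := sc_inj h
  obtain ⟨r, hr⟩ := reps_nonempty _ _ (Nat.find_spec h1)
  have h5 : r ∈ (reps_finite (Nat.find h1) (fam O0 i p)).toFinset := by
    rw [Set.Finite.mem_toFinset]; exact hr
  have h6 := h5
  rw [h4, Set.Finite.mem_toFinset] at h6
  have h7 := h6.1
  rw [← h3] at h7
  exact hr.1.symm.trans h7

/-- the graph of the coding function of the family `i`: variable `0` is the parameter, variable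
`1` the code. -/
def KK (i : ℕ) : Cd :=
  Cd.bor (i + 1) (fun j =>
    .and (.ex 2 (same j 2 i 0)) (.and (Cd.band j (fun k => .neg (.ex 2 (same k 2 i 0))))
      (.all 2 (.iff (.mm j (.var 2) (.var 1))
        (.and (same j 2 i 0) (.all 3 (.imp (same j 3 i 0) (.le (.var 2) (.var 3)))))))))

theorem ev_KK (i : ℕ) (s : ℕ → M0) : (KK i).ev O0 s ↔ s 1 = kd (fam O0 i (s 0)) := by
  classical
  have hex : ∃ k, ∃ r, fam O0 k r = fam O0 i (s 0) := ⟨i, s 0, rfl⟩
  have hmem : ∀ (j : ℕ) (x : M0), (Cd.and (same j 2 i 0)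
      (.all 3 (.imp (same j 3 i 0) (.le (.var 2) (.var 3))))).ev O0 (Function.update s 2 x) ↔
      x ∈ reps j (fam O0 i (s 0)) := by
    intro j x
    show (same j 2 i 0).ev O0 _ ∧ _ ↔ _
    rw [ev_same _ _ _ _ _ (by norm_num) (by norm_num), ev_all]
    simp only [ev_imp]
    have : ∀ y, (same j 3 i 0).ev O0 (Function.update (Function.update s 2 x) 3 y) ↔
        fam O0 j y = fam O0 i (s 0) := by
      intro y
      rw [ev_same _ _ _ _ _ (by norm_num) (by norm_num)]
      simp
    simp only [this]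
    have h2 : ∀ y, (Cd.le (.var 2) (.var 3)).ev O0 (Function.update (Function.update s 2 x) 3 y) ↔
        rk x ≤ rk y := by
      intro y
      show rk _ ≤ rk _ ↔ _
      simp [Tr.ev]
    simp only [h2]
    simp [reps]
  have hex2 : ∀ k, (Cd.ex 2 (same k 2 i 0)).ev O0 s ↔ ∃ q, fam O0 k q = fam O0 i (s 0) := by
    intro k
    show (∃ x, (same k 2 i 0).ev O0 (Function.update s 2 x)) ↔ _
    apply exists_congr
    intro x
    rw [ev_same _ _ _ _ _ (by norm_num) (by norm_num)]
    simp
  unfold KK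
  rw [ev_bor]
  constructor
  · rintro ⟨j, hj, h1, h2, h3⟩
    rw [hex2] at h1
    rw [ev_band] at h2
    have hfind : Nat.find hex = j := by
      rw [Nat.find_eq_iff]
      refine ⟨h1, fun k hk => ?_⟩
      have := h2 k hk
      rw [← hex2]
      exact this
    rw [ev_all] at h3
    have h4 : ∀ x, DeltaBLNotChoice.mm j x (s 1) ↔ x ∈ reps j (fam O0 i (s 0)) := by
      intro x
      have := h3 x
      rw [ev_iff, hmem] at this
      rw [← this]
      show _ ↔ DeltaBLNotChoice.mm j _ _
      simp [Tr.ev]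
    obtain ⟨r, hr⟩ := reps_nonempty _ _ h1
    obtain ⟨A, hA, hrA⟩ := (h4 r).mpr hr
    subst hfind
    unfold kd
    rw [dif_pos hex, hA]
    congr 1
    ext x
    rw [Set.Finite.mem_toFinset, ← h4 x, hA, mm_sc]
  · intro h
    unfold kd at h
    rw [dif_pos hex] at h
    refine ⟨Nat.find hex, ?_, ?_, ?_, ?_⟩
    · have := Nat.find_min' hex ⟨s 0, rfl⟩
      omega
    · rw [hex2]; exact Nat.find_spec hex
    · rw [ev_band]
      intro k hk
      show ¬ (Cd.ex 2 (same k 2 i 0)).ev O0 s
      rw [hex2]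
      exact Nat.find_min hex hk
    · rw [ev_all]
      intro x
      rw [ev_iff, hmem]
      show DeltaBLNotChoice.mm (Nat.find hex) _ _ ↔ _
      simp only [Tr.ev, Function.update_self]
      rw [Function.update_of_ne (by norm_num), h, mm_sc, Set.Finite.mem_toFinset]

/-- the coding function in the ultrapower -/
noncomputable def kdN (i : ℕ) (p : N) : N := ((fun n => kd (fam O0 i (lf p n)) : ℕ → M0) : N)

theorem ev_KKN (i : ℕ) (s : ℕ → N) : (KK i).ev ON s ↔ s 1 = kdN i (s 0) := by
  rw [los, eq_iff]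
  constructor
  · intro h
    filter_upwards [h, lf_coe (fun n => kd (fam O0 i (lf (s 0) n)))] with n h1 h2
    rw [ev_KK] at h1
    show lf (s 1) n = lf (kdN i (s 0)) n
    unfold kdN
    rw [h2]; exact h1
  · intro h
    filter_upwards [h, lf_coe (fun n => kd (fam O0 i (lf (s 0) n)))] with n h1 h2
    rw [ev_KK]
    show lf (s 1) n = kd (fam O0 i (lf (s 0) n))
    rw [h1]; exact h2

theorem kdN_inj (i j : ℕ) (p q : N) : kdN i p = kdN j q ↔ fam ON i p = fam ON j q := by
  let s : ℕ → N := fun v => if v = 0 then p else q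
  have h1 : fam ON i p = fam ON j q ↔ (same i 0 j 1).ev ON s := by
    rw [ev_same _ _ _ _ _ (by norm_num) (by norm_num)]
    simp [s]
  rw [h1, los, eq_iff]
  have h2 : ∀ n, (same i 0 j 1).ev O0 (la s n) ↔ fam O0 i (lf p n) = fam O0 j (lf q n) := by
    intro n
    rw [ev_same _ _ _ _ _ (by norm_num) (by norm_num)]
    simp [s, la]
  constructor
  · intro h
    filter_upwards [h, lf_coe (fun n => kd (fam O0 i (lf p n))),
      lf_coe (fun n => kd (fam O0 j (lf q n)))] with n h3 h4 h5
    rw [h2]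
    apply kd_inj
    unfold kdN at h3
    rw [← h4, ← h5]; exact h3
  · intro h
    filter_upwards [h, lf_coe (fun n => kd (fam O0 i (lf p n))),
      lf_coe (fun n => kd (fam O0 j (lf q n)))] with n h3 h4 h5
    rw [h2] at h3
    unfold kdN
    rw [h4, h5, h3]

/-! ## The model -/

/-- the definable relations of the ultrapower -/
def SN (n : ℕ) : Set (Set (Fin (n + 1) → N)) :=
  {R | ∃ (i : ℕ) (p : N), R = {a | (cd i).ev ON (asg p a)}}

/-- the model -/
abbrev NN : BLStr where
  M := N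
  S := SN
  ext X := kdN X.2.choose X.2.choose_spec.choose

theorem fin1 (a : Fin 1 → N) : (fun _ => a 0) = a := by
  funext k; rw [Subsingleton.elim k 0]

theorem fam_of_eq {i j : ℕ} {p q : N}
    (h : {a : Fin 1 → N | (cd i).ev ON (asg p a)} = {a | (cd j).ev ON (asg q a)}) :
    fam ON i p = fam ON j q := by
  ext x
  have : (fun _ : Fin 1 => x) ∈ {a : Fin 1 → N | (cd i).ev ON (asg p a)} ↔
    (fun _ : Fin 1 => x) ∈ {a : Fin 1 → N | (cd j).ev ON (asg q a)} := by rw [h]
  exact this

theorem ext_spec (X : NN.Rel 0) (i : ℕ) (p : N) (h : X.1 = {a | (cd i).ev ON (asg p a)}) :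
    NN.ext X = kdN i p := by
  show kdN X.2.choose X.2.choose_spec.choose = kdN i p
  rw [kdN_inj]
  apply fam_of_eq
  rw [← X.2.choose_spec.choose_spec]
  exact h

theorem NN_basicLawV : NN.BasicLawV := by
  intro X Y
  constructor
  · intro h x
    obtain ⟨i, p, hX⟩ := X.2
    obtain ⟨j, q, hY⟩ := Y.2
    rw [ext_spec X i p hX, ext_spec Y j q hY, kdN_inj] at h
    rw [hX, hY]
    show x ∈ fam ON i p ↔ x ∈ fam ON j q
    rw [h]
  · intro h
    have : X = Y := by
      apply Subtype.ext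
      ext a
      have := h (a 0)
      rwa [fin1] at this
    rw [this]

/-! ### supports -/

theorem tr_support (t : Tr) : ∃ B : ℕ, ∀ (O : Ops N) (s s' : ℕ → N), (∀ v < B, s v = s' v) →
    t.ev O s = t.ev O s' := by
  induction t with
  | var v => exact ⟨v + 1, fun O s s' h => h v (Nat.lt_succ_self v)⟩
  | fs t ih => obtain ⟨B, hB⟩ := ih; exact ⟨B, fun O s s' h => congrArg O.fs (hB O s s' h)⟩
  | sn t ih => obtain ⟨B, hB⟩ := ih; exact ⟨B, fun O s s' h => congrArg O.sn (hB O s s' h)⟩
  | tw t ih => obtain ⟨B, hB⟩ := ih; exact ⟨B, fun O s s' h => congrArg O.tw (hB O s s' h)⟩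
  | pr t u iht ihu =>
    obtain ⟨B, hB⟩ := iht
    obtain ⟨C, hC⟩ := ihu
    refine ⟨max B C, fun O s s' h => ?_⟩
    show O.pr _ _ = O.pr _ _
    rw [hB O s s' (fun v hv => h v (lt_max_of_lt_left hv)),
      hC O s s' (fun v hv => h v (lt_max_of_lt_right hv))]

theorem trs_support (l : List Tr) : ∃ B : ℕ, ∀ (O : Ops N) (s s' : ℕ → N),
    (∀ v < B, s v = s' v) → ∀ t ∈ l, t.ev O s = t.ev O s' := by
  induction l with
  | nil => exact ⟨0, fun O s s' h t ht => absurd ht (by simp)⟩
  | cons a l ih =>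
    obtain ⟨B, hB⟩ := ih
    obtain ⟨C, hC⟩ := tr_support a
    refine ⟨max B C, fun O s s' h t ht => ?_⟩
    rcases List.mem_cons.mp ht with rfl | ht
    · exact hC O s s' (fun v hv => h v (lt_max_of_lt_right hv))
    · exact hB O s s' (fun v hv => h v (lt_max_of_lt_left hv)) t ht

theorem getD_mem (l : List Tr) (d : Tr) (v : ℕ) : l.getD v d ∈ d :: l := by
  rw [List.getD_eq_getElem?_getD]
  rcases h : l[v]? with _ | a
  · simp
  · simp only [Option.getD_some]
    exact List.mem_cons_of_mem _ (List.mem_of_getElem? h)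

theorem cd_support (c : Cd) : ∃ B : ℕ, ∀ (O : Ops N) (s s' : ℕ → N), (∀ v < B, s v = s' v) →
    (c.ev O s ↔ c.ev O s') := by
  induction c with
  | eq t u =>
    obtain ⟨B, hB⟩ := tr_support t
    obtain ⟨C, hC⟩ := tr_support u
    refine ⟨max B C, fun O s s' h => ?_⟩
    show _ = _ ↔ _ = _
    rw [hB O s s' (fun v hv => h v (lt_max_of_lt_left hv)),
      hC O s s' (fun v hv => h v (lt_max_of_lt_right hv))]
  | mm i t u =>
    obtain ⟨B, hB⟩ := tr_support t
    obtain ⟨C, hC⟩ := tr_support u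
    refine ⟨max B C, fun O s s' h => ?_⟩
    show O.mm i _ _ ↔ O.mm i _ _
    rw [hB O s s' (fun v hv => h v (lt_max_of_lt_left hv)),
      hC O s s' (fun v hv => h v (lt_max_of_lt_right hv))]
  | le t u =>
    obtain ⟨B, hB⟩ := tr_support t
    obtain ⟨C, hC⟩ := tr_support u
    refine ⟨max B C, fun O s s' h => ?_⟩
    show O.le _ _ ↔ O.le _ _
    rw [hB O s s' (fun v hv => h v (lt_max_of_lt_left hv)),
      hC O s s' (fun v hv => h v (lt_max_of_lt_right hv))]
  | neg c ih =>
    obtain ⟨B, hB⟩ := ih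
    exact ⟨B, fun O s s' h => not_congr (hB O s s' h)⟩
  | and c d ihc ihd =>
    obtain ⟨B, hB⟩ := ihc
    obtain ⟨C, hC⟩ := ihd
    exact ⟨max B C, fun O s s' h => and_congr
      (hB O s s' (fun v hv => h v (lt_max_of_lt_left hv)))
      (hC O s s' (fun v hv => h v (lt_max_of_lt_right hv)))⟩
  | ex w c ih =>
    obtain ⟨B, hB⟩ := ih
    refine ⟨B, fun O s s' h => exists_congr (fun x => hB O _ _ ?_)⟩
    intro v hv
    by_cases hvw : v = w
    · subst hvw; simp
    · simp [Function.update_of_ne hvw, h v hv]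
  | sub d l c ih =>
    obtain ⟨B, hB⟩ := trs_support (d :: l)
    refine ⟨B, fun O s s' h => ?_⟩
    show c.ev O _ ↔ c.ev O _
    have : (fun v => (l.getD v d).ev O s) = (fun v => (l.getD v d).ev O s') := by
      funext v
      exact hB O s s' h _ (getD_mem l d v)
    rw [this]

/-! ### substitution lemmas -/

/-- a general substitution: given a bound `B` for the support of `c` and terms for `v < B` -/
theorem subst_terms (c : Cd) (f : ℕ → Tr) : ∃ c' : Cd, ∀ s : ℕ → N,
    c'.ev ON s ↔ c.ev ON (fun v => (f v).ev ON s) := by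
  obtain ⟨B, hB⟩ := cd_support c
  refine ⟨.sub (.var 0) ((List.range B).map f) c, fun s => ?_⟩
  show c.ev ON _ ↔ _
  apply hB
  intro v hv
  simp [List.getD_eq_getElem?_getD, hv]

theorem subst_var (c : Cd) (v w : ℕ) : ∃ c' : Cd, ∀ s : ℕ → N,
    c'.ev ON s ↔ c.ev ON (Function.update s v (s w)) := by
  obtain ⟨c', hc'⟩ := subst_terms c (fun n => if n = v then .var w else .var n)
  refine ⟨c', fun s => ?_⟩
  rw [hc']
  have : (fun n => (if n = v then Tr.var w else Tr.var n).ev ON s) = Function.update s v (s w) := by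
    funext n
    by_cases h : n = v
    · subst h; simp [Tr.ev]
    · simp [h, Tr.ev]
  rw [this]

theorem subst_kd (c : Cd) (v i u : ℕ) : ∃ c' : Cd, ∀ s : ℕ → N,
    c'.ev ON s ↔ c.ev ON (Function.update s v (kdN i (s u))) := by
  obtain ⟨B, hB⟩ := cd_support c
  set w := max B (u + 1) with hw
  have hwu : u ≠ w := by omega
  obtain ⟨c₁, hc₁⟩ := subst_var c v w
  refine ⟨.ex w (.and (.sub (.var u) [.var u, .var w] (KK i)) c₁), fun s => ?_⟩
  have hK : ∀ s' : ℕ → N, (Cd.sub (.var u) [.var u, .var w] (KK i)).ev ON s' ↔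
      s' w = kdN i (s' u) := by
    intro s'
    show (KK i).ev ON _ ↔ _
    rw [ev_KKN]
    simp [Tr.ev]
  show (∃ x, (Cd.sub (.var u) [.var u, .var w] (KK i)).ev ON (Function.update s w x) ∧
    c₁.ev ON (Function.update s w x)) ↔ _
  simp only [hK, hc₁, Function.update_self, Function.update_of_ne hwu, exists_eq_left]
  apply hB
  intro n hn
  have hnw : n ≠ w := by omega
  by_cases h : n = v
  · subst h; simp
  · simp [Function.update_of_ne h, Function.update_of_ne hnw]

/-! ### translation of arithmetical formulas -/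

/-- name of the parameter variable for a relation variable -/
def pv (n j : ℕ) : ℕ := 3 * Nat.pair n j + 1

theorem pv_inj {n j n' j' : ℕ} (h : pv n j = pv n' j') : n = n' ∧ j = j' := by
  unfold pv at h
  have : Nat.pair n j = Nat.pair n' j' := by omega
  exact Nat.pair_eq_pair.mp this

/-- the object assignment read off from `s` -/
def ea (s : ℕ → N) : ℕ → NN.M := fun i => s (3 * i)

/-- the relation assignment read off from `s` and the indices `g` -/
def ra (g : ℕ → ℕ → ℕ) (s : ℕ → N) : NN.RAsg :=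
  fun n j => ⟨{a | (cd (g n j)).ev ON (asg (s (pv n j)) a)}, ⟨_, _, rfl⟩⟩

/-- value of terms -/
def tv (g : ℕ → ℕ → ℕ) (s : ℕ → N) : Tm → N
  | .var i => s (3 * i)
  | .ext j => kdN (g 0 j) (s (pv 0 j))

theorem tv_eq (g : ℕ → ℕ → ℕ) (s : ℕ → N) (t : Tm) : NN.val (ea s) (ra g s) t = tv g s t := by
  cases t with
  | var i => rfl
  | ext j => exact ext_spec _ _ _ rfl

theorem tv_update (g : ℕ → ℕ → ℕ) (s : ℕ → N) (k : ℕ) (x : N) (t : Tm) :
    tv g (Function.update s (3 * k + 2) x) t = tv g s t := by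
  cases t with
  | var i =>
    show (Function.update s (3 * k + 2) x) (3 * i) = _
    rw [Function.update_of_ne (by omega)]; rfl
  | ext j =>
    show kdN _ ((Function.update s (3 * k + 2) x) (pv 0 j)) = _
    rw [Function.update_of_ne (by unfold pv; omega)]; rfl

theorem subst_tm (g : ℕ → ℕ → ℕ) (c : Cd) (v : ℕ) (t : Tm) : ∃ c' : Cd, ∀ s : ℕ → N,
    c'.ev ON s ↔ c.ev ON (Function.update s v (tv g s t)) := by
  cases t with
  | var i => exact subst_var c v (3 * i)
  | ext j => exact subst_kd c v (g 0 j) (pv 0 j)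

theorem ea_update (s : ℕ → N) (i : ℕ) (x : N) :
    ea (Function.update s (3 * i) x) = Function.update (ea s) i x := by
  funext k
  unfold ea
  by_cases h : k = i
  · subst h; simp
  · rw [Function.update_of_ne (by omega), Function.update_of_ne h]

theorem ra_update (g : ℕ → ℕ → ℕ) (s : ℕ → N) (i : ℕ) (x : N) :
    ra g (Function.update s (3 * i) x) = ra g s := by
  funext n j
  unfold ra
  have : (Function.update s (3 * i) x) (pv n j) = s (pv n j) :=
    Function.update_of_ne (by unfold pv; omega) _ _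
  simp only [this]

theorem trans_rel (g : ℕ → ℕ → ℕ) (n j : ℕ) (args : Fin (n + 1) → Tm) : ∃ c : Cd, ∀ s : ℕ → N,
    c.ev ON s ↔ (cd (g n j)).ev ON (asg (s (pv n j)) (fun k => tv g s (args k))) := by
  have key : ∀ m : ℕ, ∃ c : Cd, ∀ s : ℕ → N, c.ev ON s ↔
      (cd (g n j)).ev ON (asg (s (pv n j))
        (fun k : Fin (n + 1) => if k.1 < m then tv g s (args k) else s (3 * k.1 + 2))) := by
    intro m
    induction m with
    | zero =>
      obtain ⟨c, hc⟩ := subst_terms (cd (g n j))
        (fun v => if 0 < v ∧ v - 1 < n + 1 then .var (3 * (v - 1) + 2) else .var (pv n j))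
      refine ⟨c, fun s => ?_⟩
      rw [hc]
      have : (fun v => (if 0 < v ∧ v - 1 < n + 1 then Tr.var (3 * (v - 1) + 2)
          else Tr.var (pv n j)).ev ON s) = asg (s (pv n j))
            (fun k : Fin (n + 1) => if k.1 < 0 then tv g s (args k) else s (3 * k.1 + 2)) := by
        funext v
        unfold asg
        by_cases h : 0 < v ∧ v - 1 < n + 1
        · simp [h, Tr.ev]
        · rw [if_neg h, dif_neg h]; rfl
      rw [this]
    | succ m ih =>
      obtain ⟨c, hc⟩ := ih
      by_cases hm : m < n + 1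
      · obtain ⟨c', hc'⟩ := subst_tm g c (3 * m + 2) (args ⟨m, hm⟩)
        refine ⟨c', fun s => ?_⟩
        rw [hc', hc]
        have h1 : (Function.update s (3 * m + 2) (tv g s (args ⟨m, hm⟩))) (pv n j) = s (pv n j) :=
          Function.update_of_ne (by unfold pv; omega) _ _
        rw [h1]
        have h2 : (fun k : Fin (n + 1) => if k.1 < m then
            tv g (Function.update s (3 * m + 2) (tv g s (args ⟨m, hm⟩))) (args k)
            else (Function.update s (3 * m + 2) (tv g s (args ⟨m, hm⟩))) (3 * k.1 + 2)) =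
            fun k : Fin (n + 1) => if k.1 < m + 1 then tv g s (args k) else s (3 * k.1 + 2) := by
          funext k
          rw [tv_update]
          rcases lt_trichotomy k.1 m with h | h | h
          · rw [if_pos h, if_pos (by omega)]
          · rw [if_neg (by omega), if_pos (by omega)]
            have hk : k = ⟨m, hm⟩ := Fin.ext h
            rw [hk]
            simp
          · rw [if_neg (by omega), if_neg (by omega), Function.update_of_ne (by omega)]
        rw [h2]
      · refine ⟨c, fun s => ?_⟩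
        rw [hc]
        have h2 : (fun k : Fin (n + 1) => if k.1 < m then tv g s (args k) else s (3 * k.1 + 2)) =
            fun k : Fin (n + 1) => if k.1 < m + 1 then tv g s (args k) else s (3 * k.1 + 2) := by
          funext k
          have := k.2
          rw [if_pos (by omega), if_pos (by omega)]
        rw [h2]
  obtain ⟨c, hc⟩ := key (n + 1)
  refine ⟨c, fun s => ?_⟩
  rw [hc]
  have h2 : (fun k : Fin (n + 1) => if k.1 < n + 1 then tv g s (args k) else s (3 * k.1 + 2)) =
      fun k : Fin (n + 1) => tv g s (args k) := by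
    funext k
    rw [if_pos k.2]
  rw [h2]

theorem trans_arith (φ : Fm) (hφ : IsArith φ) (g : ℕ → ℕ → ℕ) : ∃ c : Cd, ∀ s : ℕ → N,
    NN.Sat φ (ea s) (ra g s) ↔ c.ev ON s := by
  induction φ with
  | eq t u =>
    obtain ⟨c₁, h₁⟩ := subst_tm g (.eq (.var 2) (.var 5)) 2 t
    obtain ⟨c₂, h₂⟩ := subst_tm g c₁ 5 u
    refine ⟨c₂, fun s => ?_⟩
    rw [h₂, h₁]
    show NN.val _ _ t = NN.val _ _ u ↔ _
    rw [tv_eq, tv_eq]
    have e5 : ∀ x t, tv g (Function.update s 5 x) t = tv g s t := fun x t => tv_update g s 1 x t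
    show _ ↔ Tr.ev ON _ _ = Tr.ev ON _ _
    simp [Tr.ev, e5]
  | rel n j args =>
    obtain ⟨c, hc⟩ := trans_rel g n j args
    refine ⟨c, fun s => ?_⟩
    rw [hc]
    show (fun k => NN.val (ea s) (ra g s) (args k)) ∈ (ra g s n j).1 ↔ _
    have : (fun k => NN.val (ea s) (ra g s) (args k)) = fun k => tv g s (args k) := by
      funext k; exact tv_eq g s (args k)
    rw [this]
    rfl
  | neg φ ih =>
    obtain ⟨c, hc⟩ := ih hφ
    exact ⟨.neg c, fun s => not_congr (hc s)⟩
  | and φ ψ ihφ ihψ =>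
    obtain ⟨c, hc⟩ := ihφ hφ.1
    obtain ⟨d, hd⟩ := ihψ hφ.2
    exact ⟨.and c d, fun s => and_congr (hc s) (hd s)⟩
  | all i φ ih =>
    obtain ⟨c, hc⟩ := ih hφ
    refine ⟨.all (3 * i) c, fun s => ?_⟩
    rw [ev_all]
    show (∀ x : N, NN.Sat φ (Function.update (ea s) i x) (ra g s)) ↔ _
    apply forall_congr'
    intro x
    rw [← hc, ea_update, ra_update]
  | allR n j φ ih => exact absurd hφ (by simp [IsArith])
  | exR n j φ ih => exact absurd hφ (by simp [IsArith])

/-! ## Delta-comprehension -/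

/-! ### packing parameters -/

theorem fs_pr (a b : N) : ON.fs (ON.pr a b) = a := by
  show Germ.map DeltaBLNotChoice.fs (Germ.map₂ DeltaBLNotChoice.pr a b) = a
  rw [eq_iff]
  filter_upwards [lf_map DeltaBLNotChoice.fs (Germ.map₂ DeltaBLNotChoice.pr a b), lf_map₂ DeltaBLNotChoice.pr a b] with i h1 h2
  rw [h1, h2, (pr_spec _ _).1]

theorem sn_pr (a b : N) : ON.sn (ON.pr a b) = b := by
  show Germ.map DeltaBLNotChoice.sn (Germ.map₂ DeltaBLNotChoice.pr a b) = b
  rw [eq_iff]
  filter_upwards [lf_map DeltaBLNotChoice.sn (Germ.map₂ DeltaBLNotChoice.pr a b), lf_map₂ DeltaBLNotChoice.pr a b] with i h1 h2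
  rw [h1, h2, (pr_spec _ _).2]

def prjv : N → ℕ → N
  | q, 0 => ON.fs q
  | q, k + 1 => prjv (ON.sn q) k

def prT : Tr → ℕ → Tr
  | t, 0 => .fs t
  | t, k + 1 => prT (.sn t) k

theorem prT_ev (k : ℕ) : ∀ (t : Tr) (s : ℕ → N), (prT t k).ev ON s = prjv (t.ev ON s) k := by
  induction k with
  | zero => intro t s; rfl
  | succ k ih => intro t s; exact ih (.sn t) s

theorem exists_packed (B : ℕ) : ∀ s : ℕ → N, ∃ q : N, ∀ v < B, prjv q v = s v := by
  induction B with
  | zero => intro s; exact ⟨s 0, fun v hv => absurd hv (by omega)⟩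
  | succ B ih =>
    intro s
    obtain ⟨q, hq⟩ := ih (fun v => s (v + 1))
    refine ⟨ON.pr (s 0) q, fun v hv => ?_⟩
    rcases v with _ | v
    · exact fs_pr _ _
    · show prjv (ON.sn (ON.pr (s 0) q)) v = s (v + 1)
      rw [sn_pr]
      exact hq v (by omega)

theorem pack (c : Cd) {n : ℕ} (ys : Fin (n + 1) → ℕ) (hys : Function.Injective ys) (s : ℕ → N) :
    ∃ (i : ℕ) (p : N), ∀ a : Fin (n + 1) → N,
      (cd i).ev ON (asg p a) ↔ c.ev ON (Function.extend ys a s) := by
  classical
  obtain ⟨B, hB⟩ := cd_support c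
  obtain ⟨q, hq⟩ := exists_packed B s
  let f : ℕ → Tr := fun v => if h : ∃ k, ys k = v then .var (h.choose.1 + 1) else prT (.var 0) v
  obtain ⟨c', hc'⟩ := subst_terms c f
  obtain ⟨i, hi⟩ := cd_surj c'
  refine ⟨i, q, fun a => ?_⟩
  rw [hi, hc']
  apply hB
  intro v hv
  by_cases h : ∃ k, ys k = v
  · have h1 : f v = .var (h.choose.1 + 1) := dif_pos h
    rw [h1]
    have h2 : Function.extend ys a s v = a h.choose := by
      conv_lhs => rw [← h.choose_spec]
      exact hys.extend_apply _ _ _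
    rw [h2]
    show asg q a (h.choose.1 + 1) = a h.choose
    unfold asg
    rw [dif_pos ⟨by omega, by have := h.choose.2; omega⟩]
    rfl
  · have h1 : f v = prT (.var 0) v := dif_neg h
    rw [h1, prT_ev, Function.extend_apply' _ _ _ h]
    have h2 : (Tr.var 0).ev ON (asg q a) = q := by
      show asg q a 0 = q
      unfold asg
      rw [dif_neg (by omega)]
    rw [h2]
    exact hq v hv

/-- the index of a relation of the model -/
def idx {n : ℕ} (R : NN.Rel n) : ℕ := R.2.choose
/-- the parameter of a relation of the model -/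
def par {n : ℕ} (R : NN.Rel n) : N := R.2.choose_spec.choose
theorem idx_par {n : ℕ} (R : NN.Rel n) : R.1 = {a | (cd (idx R)).ev ON (asg (par R) a)} :=
  R.2.choose_spec.choose_spec

theorem exists_rep (e : ℕ → N) (ρ : NN.RAsg) : ∃ (g : ℕ → ℕ → ℕ) (s : ℕ → N),
    ea s = e ∧ ra g s = ρ := by
  let s : ℕ → N := fun v => if v % 3 = 0 then e (v / 3) else
    par (ρ (Nat.unpair (v / 3)).1 (Nat.unpair (v / 3)).2)
  refine ⟨fun n j => idx (ρ n j), s, ?_, ?_⟩
  · funext k
    show s (3 * k) = e k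
    have h1 : (3 * k) % 3 = 0 := by omega
    have h2 : (3 * k) / 3 = k := by omega
    show (if (3 * k) % 3 = 0 then e ((3 * k) / 3) else _) = e k
    rw [if_pos h1, h2]
  · funext n j
    apply Subtype.ext
    show {a | (cd (idx (ρ n j))).ev ON (asg (s (pv n j)) a)} = (ρ n j).1
    have h1 : s (pv n j) = par (ρ n j) := by
      have h1 : ¬ (3 * Nat.pair n j + 1) % 3 = 0 := by omega
      have h2 : (3 * Nat.pair n j + 1) / 3 = Nat.pair n j := by omega
      show (if (3 * Nat.pair n j + 1) % 3 = 0 then e ((3 * Nat.pair n j + 1) / 3) else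
        par (ρ (Nat.unpair ((3 * Nat.pair n j + 1) / 3)).1
          (Nat.unpair ((3 * Nat.pair n j + 1) / 3)).2)) = _
      rw [if_neg h1, h2, Nat.unpair_pair]
    rw [h1]
    exact (idx_par (ρ n j)).symm

theorem inj3 {n : ℕ} {xs : Fin (n + 1) → ℕ} (h : Function.Injective xs) :
    Function.Injective (fun k => 3 * xs k) := by
  intro a b hab
  apply h
  simp only at hab
  omega

theorem ea_extend {n : ℕ} {xs : Fin (n + 1) → ℕ} (h : Function.Injective xs)
    (a : Fin (n + 1) → N) (s : ℕ → N) :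
    ea (Function.extend (fun k => 3 * xs k) a s) = Function.extend xs a (ea s) := by
  funext v
  unfold ea
  by_cases hv : ∃ k, xs k = v
  · obtain ⟨k, rfl⟩ := hv
    rw [h.extend_apply]
    exact (inj3 h).extend_apply a s k
  · rw [Function.extend_apply' _ _ _ hv, Function.extend_apply']
    rintro ⟨k, hk⟩
    exact hv ⟨k, by omega⟩

theorem ra_extend {n : ℕ} {xs : Fin (n + 1) → ℕ} (g : ℕ → ℕ → ℕ)
    (a : Fin (n + 1) → N) (s : ℕ → N) :
    ra g (Function.extend (fun k => 3 * xs k) a s) = ra g s := by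
  funext m j
  unfold ra
  have : Function.extend (fun k => 3 * xs k) a s (pv m j) = s (pv m j) := by
    apply Function.extend_apply'
    rintro ⟨k, hk⟩
    unfold pv at hk
    omega
  simp only [this]

theorem NN_arith : NN.ArithComprehension := by
  intro φ hφ n xs hxs e ρ
  obtain ⟨g, s, rfl, rfl⟩ := exists_rep e ρ
  obtain ⟨c, hc⟩ := trans_arith φ hφ g
  obtain ⟨i, p, hp⟩ := pack c (fun k => 3 * xs k) (inj3 hxs) s
  refine ⟨{a | (cd i).ev ON (asg p a)}, ⟨i, p, rfl⟩, fun a => ?_⟩
  show (cd i).ev ON (asg p a) ↔ _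
  rw [hp, ← hc, ea_extend hxs, ra_extend]

/-! ### Σ and Π formulas as countable disjunctions and conjunctions -/

theorem ea_pv (s : ℕ → N) (n j : ℕ) (p : N) : ea (Function.update s (pv n j) p) = ea s := by
  funext k
  unfold ea
  rw [Function.update_of_ne (by unfold pv; omega)]

theorem ra_pv (g : ℕ → ℕ → ℕ) (s : ℕ → N) (n j i : ℕ) (p : N) (R : NN.Rel n)
    (hR : R.1 = {a | (cd i).ev ON (asg p a)}) :
    ra (Function.update g n (Function.update (g n) j i)) (Function.update s (pv n j) p) =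
      NN.upd (ra g s) n j R := by
  funext n' j'
  unfold BLStr.upd
  by_cases hn : n' = n
  · subst hn
    rw [Function.update_self]
    by_cases hj : j' = j
    · subst hj
      rw [Function.update_self]
      apply Subtype.ext
      rw [hR]
      unfold ra
      simp only [Function.update_self]
    · rw [Function.update_of_ne hj]
      unfold ra
      have h1 : (Function.update s (pv n' j) p) (pv n' j') = s (pv n' j') :=
        Function.update_of_ne (fun h => hj (pv_inj h).2) _ _
      simp only [Function.update_self, Function.update_of_ne hj, h1]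
  · rw [Function.update_of_ne hn]
    unfold ra
    have h1 : (Function.update s (pv n j) p) (pv n' j') = s (pv n' j') :=
      Function.update_of_ne (fun h => hn (pv_inj h).1) _ _
    simp only [Function.update_of_ne hn, h1]

theorem trans_sigma (φ : Fm) (hφ : IsSigma φ) : ∀ g : ℕ → ℕ → ℕ, ∃ F : ℕ → Cd, ∀ s : ℕ → N,
    NN.Sat φ (ea s) (ra g s) ↔ ∃ k, (F k).ev ON s := by
  induction hφ with
  | arith h =>
    intro g
    obtain ⟨c, hc⟩ := trans_arith _ h g
    exact ⟨fun _ => c, fun s => by rw [hc]; simp⟩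
  | @exR n j φ _ ih =>
    intro g
    choose F hF using fun i => ih (Function.update g n (Function.update (g n) j i))
    refine ⟨fun m => .ex (pv n j) (F (Nat.unpair m).1 (Nat.unpair m).2), fun s => ?_⟩
    show (∃ R : NN.Rel n, NN.Sat φ (ea s) (NN.upd (ra g s) n j R)) ↔
      ∃ m, ∃ p : N, (F (Nat.unpair m).1 (Nat.unpair m).2).ev ON (Function.update s (pv n j) p)
    constructor
    · rintro ⟨R, hR⟩
      obtain ⟨i, p, hip⟩ := R.2
      rw [← ra_pv g s n j i p R hip, ← ea_pv s n j p, hF] at hR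
      obtain ⟨k, hk⟩ := hR
      exact ⟨Nat.pair i k, p, by simpa using hk⟩
    · rintro ⟨m, p, h⟩
      have h1 := (hF (Nat.unpair m).1 (Function.update s (pv n j) p)).mpr ⟨_, h⟩
      refine ⟨⟨{a | (cd (Nat.unpair m).1).ev ON (asg p a)}, ⟨_, _, rfl⟩⟩, ?_⟩
      rw [← ra_pv g s n j _ p _ rfl, ← ea_pv s n j p]
      exact h1

theorem trans_pi (φ : Fm) (hφ : IsPi φ) : ∀ g : ℕ → ℕ → ℕ, ∃ F : ℕ → Cd, ∀ s : ℕ → N,
    NN.Sat φ (ea s) (ra g s) ↔ ∀ k, (F k).ev ON s := by
  induction hφ with
  | arith h =>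
    intro g
    obtain ⟨c, hc⟩ := trans_arith _ h g
    exact ⟨fun _ => c, fun s => by rw [hc]; simp⟩
  | @allR n j φ _ ih =>
    intro g
    choose F hF using fun i => ih (Function.update g n (Function.update (g n) j i))
    refine ⟨fun m => .all (pv n j) (F (Nat.unpair m).1 (Nat.unpair m).2), fun s => ?_⟩
    simp only [ev_all]
    show (∀ R : NN.Rel n, NN.Sat φ (ea s) (NN.upd (ra g s) n j R)) ↔
      ∀ m, ∀ p : N, (F (Nat.unpair m).1 (Nat.unpair m).2).ev ON (Function.update s (pv n j) p)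
    constructor
    · intro h m p
      have h1 := h ⟨{a | (cd (Nat.unpair m).1).ev ON (asg p a)}, ⟨_, _, rfl⟩⟩
      rw [← ra_pv g s n j _ p _ rfl, ← ea_pv s n j p] at h1
      exact (hF (Nat.unpair m).1 (Function.update s (pv n j) p)).mp h1 _
    · intro h R
      obtain ⟨i, p, hip⟩ := R.2
      rw [← ra_pv g s n j i p R hip, ← ea_pv s n j p, hF]
      intro k
      have := h (Nat.pair i k) p
      simpa using this

/-! ### saturation -/

theorem la_extend {n : ℕ} {ys : Fin (n + 1) → ℕ} (hys : Function.Injective ys)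
    (a : Fin (n + 1) → N) (s : ℕ → N) (i : ℕ) :
    la (Function.extend ys a s) i = Function.extend ys (fun k => lf (a k) i) (la s i) := by
  funext v
  unfold la
  by_cases hv : ∃ k, ys k = v
  · obtain ⟨k, rfl⟩ := hv
    rw [hys.extend_apply, hys.extend_apply]
  · rw [Function.extend_apply' _ _ _ hv, Function.extend_apply' _ _ _ hv]

theorem saturation {n : ℕ} {ys : Fin (n + 1) → ℕ} (hys : Function.Injective ys) (s : ℕ → N)
    (T : ℕ → Cd) (h : ∀ a : Fin (n + 1) → N, ∃ k, (T k).ev ON (Function.extend ys a s)) :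
    ∃ K, ∀ a : Fin (n + 1) → N, ∃ k < K, (T k).ev ON (Function.extend ys a s) := by
  classical
  by_contra hcon
  push Not at hcon
  -- the property of an index
  let Q : ℕ → ℕ → Prop := fun K i => ∃ a : Fin (n + 1) → M0, ∀ k < K,
    ¬ (T k).ev O0 (Function.extend ys a (la s i))
  have hQ : ∀ K, ∀ᶠ i in (hyperfilter ℕ : Filter ℕ), Q K i := by
    intro K
    obtain ⟨a, ha⟩ := hcon K
    have h1 : ∀ᶠ i in (hyperfilter ℕ : Filter ℕ), ∀ k ∈ Finset.range K,
        ¬ (T k).ev O0 (Function.extend ys (fun k => lf (a k) i) (la s i)) := by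
      rw [Filter.eventually_all_finset]
      intro k hk
      have h2 := ha k (Finset.mem_range.mp hk)
      have h3 : (Cd.neg (T k)).ev ON (Function.extend ys a s) := h2
      rw [los] at h3
      filter_upwards [h3] with i hi
      rw [la_extend hys] at hi
      exact hi
    filter_upwards [h1] with i hi
    exact ⟨_, fun k hk => hi k (Finset.mem_range.mpr hk)⟩
  have hQ0 : ∀ i, ∃ K ≤ i, Q K i := fun i => ⟨0, Nat.zero_le _, fun _ => (0, ⟨0, 0⟩),
    fun k hk => absurd hk (by omega)⟩
  let κ : ℕ → ℕ := fun i => Nat.findGreatest (fun K => Q K i) i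
  have hκ : ∀ i, Q (κ i) i := by
    intro i
    obtain ⟨K, hK, hKQ⟩ := hQ0 i
    exact Nat.findGreatest_spec (P := fun K => Q K i) hK hKQ
  choose b hb using hκ
  let a : Fin (n + 1) → N := fun k => ((fun i => b i k : ℕ → M0) : N)
  obtain ⟨k, hk⟩ := h a
  rw [los] at hk
  have h1 : ∀ᶠ i in (hyperfilter ℕ : Filter ℕ), k < κ i := by
    have h2 : ∀ᶠ i in (hyperfilter ℕ : Filter ℕ), k + 1 ≤ i := by
      have : ∀ᶠ i in (Filter.atTop : Filter ℕ), k + 1 ≤ i := eventually_ge_atTop _
      exact Nat.hyperfilter_le_atTop this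
    filter_upwards [hQ (k + 1), h2] with i h3 h4
    exact Nat.lt_of_succ_le (Nat.le_findGreatest h4 h3)
  have h2 : ∀ᶠ i in (hyperfilter ℕ : Filter ℕ), ∀ l : Fin (n + 1), lf (a l) i = b i l := by
    rw [Filter.eventually_all]
    intro l
    exact lf_coe _
  have h3 : ∀ᶠ i in (hyperfilter ℕ : Filter ℕ), False := by
    filter_upwards [hk, h1, h2] with i e1 e2 e3
    rw [la_extend hys] at e1
    have : (fun l => lf (a l) i) = b i := by funext l; exact e3 l
    rw [this] at e1
    exact hb i k e2 e1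
  exact (Filter.eventually_false_iff_eq_bot.mp h3) |> (hyperfilter ℕ).neBot.ne

theorem NN_delta : NN.DeltaComprehension := by
  intro φ ψ hφ hψ n xs hxs e ρ heq
  obtain ⟨g, s, rfl, rfl⟩ := exists_rep e ρ
  obtain ⟨F, hF⟩ := trans_sigma φ hφ g
  obtain ⟨G, hG⟩ := trans_pi ψ hψ g
  have hF' : ∀ a : Fin (n + 1) → N, NN.Sat φ (Function.extend xs a (ea s)) (ra g s) ↔
      ∃ k, (F k).ev ON (Function.extend (fun k => 3 * xs k) a s) := by
    intro a
    rw [← hF, ea_extend hxs, ra_extend]
  have hG' : ∀ a : Fin (n + 1) → N, NN.Sat ψ (Function.extend xs a (ea s)) (ra g s) ↔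
      ∀ k, (G k).ev ON (Function.extend (fun k => 3 * xs k) a s) := by
    intro a
    rw [← hG, ea_extend hxs, ra_extend]
  let T : ℕ → Cd := fun m => if m % 2 = 0 then F (m / 2) else .neg (G (m / 2))
  have hT0 : ∀ m, T (2 * m) = F m := by
    intro m
    have h1 : (2 * m) % 2 = 0 := by omega
    have h2 : (2 * m) / 2 = m := by omega
    show (if (2 * m) % 2 = 0 then F ((2 * m) / 2) else _) = _
    rw [if_pos h1, h2]
  have hT1 : ∀ m, T (2 * m + 1) = .neg (G m) := by
    intro m
    have h1 : ¬ (2 * m + 1) % 2 = 0 := by omega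
    have h2 : (2 * m + 1) / 2 = m := by omega
    show (if (2 * m + 1) % 2 = 0 then _ else Cd.neg (G ((2 * m + 1) / 2))) = _
    rw [if_neg h1, h2]
  obtain ⟨K, hK⟩ := saturation (inj3 hxs) s T (by
    intro a
    by_cases h : NN.Sat φ (Function.extend xs a (ea s)) (ra g s)
    · obtain ⟨k, hk⟩ := (hF' a).mp h
      exact ⟨2 * k, by rw [hT0]; exact hk⟩
    · have h2 : ¬ NN.Sat ψ (Function.extend xs a (ea s)) (ra g s) := fun h' => h ((heq a).mpr h')
      rw [hG'] at h2
      push Not at h2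
      obtain ⟨k, hk⟩ := h2
      exact ⟨2 * k + 1, by rw [hT1]; exact hk⟩)
  obtain ⟨i, p, hp⟩ := pack (Cd.bor K F) (fun k => 3 * xs k) (inj3 hxs) s
  refine ⟨{a | (cd i).ev ON (asg p a)}, ⟨i, p, rfl⟩, fun a => ?_⟩
  show (cd i).ev ON (asg p a) ↔ _
  rw [hp, ev_bor]
  constructor
  · rintro ⟨k, _, hk⟩
    exact (hF' a).mpr ⟨k, hk⟩
  · intro h
    have h2 := (hG' a).mp ((heq a).mp h)
    obtain ⟨k, hk, hTk⟩ := hK a
    rcases Nat.even_or_odd' k with ⟨m, rfl | rfl⟩
    · rw [hT0] at hTk
      exact ⟨m, by omega, hTk⟩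
    · rw [hT1] at hTk
      exact absurd (h2 m) hTk

/-! ## Failure of choice -/

/-! ### invariance under the automorphism -/

theorem tr_sg (t : Tr) (s : ℕ → M0) : t.ev O0 (fun v => sg (s v)) = sg (t.ev O0 s) := by
  induction t with
  | var v => rfl
  | fs t ih => show DeltaBLNotChoice.fs _ = sg (DeltaBLNotChoice.fs _); rw [ih, fs_sg]
  | sn t ih => show DeltaBLNotChoice.sn _ = sg (DeltaBLNotChoice.sn _); rw [ih, sn_sg]
  | tw t ih => show DeltaBLNotChoice.tw _ = sg (DeltaBLNotChoice.tw _); rw [ih, tw_sg]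
  | pr t u iht ihu => show DeltaBLNotChoice.pr _ _ = sg (DeltaBLNotChoice.pr _ _); rw [iht, ihu, pr_sg]

theorem cd_sg (c : Cd) : ∀ s : ℕ → M0, c.ev O0 (fun v => sg (s v)) ↔ c.ev O0 s := by
  induction c with
  | eq t u =>
    intro s
    show _ = _ ↔ _ = _
    rw [tr_sg, tr_sg]; exact sg.injective.eq_iff
  | mm i t u =>
    intro s
    show DeltaBLNotChoice.mm i _ _ ↔ DeltaBLNotChoice.mm i _ _
    rw [tr_sg, tr_sg]; exact mm_sg i _ _
  | le t u =>
    intro s
    show rk _ ≤ rk _ ↔ rk _ ≤ rk _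
    rw [tr_sg, tr_sg]; rfl
  | neg c ih => intro s; exact not_congr (ih s)
  | and c d ihc ihd => intro s; exact and_congr (ihc s) (ihd s)
  | ex w c ih =>
    intro s
    have key : ∀ x, c.ev O0 (Function.update (fun v => sg (s v)) w (sg x)) ↔
        c.ev O0 (Function.update s w x) := by
      intro x
      have : Function.update (fun v => sg (s v)) w (sg x) =
          fun v => sg (Function.update s w x v) := by
        funext v
        by_cases h : v = w
        · subst h; simp
        · simp [Function.update_of_ne h]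
      rw [this]
      exact ih (Function.update s w x)
    constructor
    · rintro ⟨x, hx⟩
      refine ⟨sg.symm x, (key _).mp ?_⟩
      rw [Equiv.apply_symm_apply]; exact hx
    · rintro ⟨x, hx⟩
      exact ⟨sg x, (key x).mpr hx⟩
  | sub d l c ih =>
    intro s
    have : (fun v => (l.getD v d).ev O0 (fun v => sg (s v))) =
        fun v => sg ((l.getD v d).ev O0 s) := by
      funext v; exact tr_sg _ _
    show c.ev O0 (fun v => (l.getD v d).ev O0 (fun v => sg (s v))) ↔
      c.ev O0 (fun v => (l.getD v d).ev O0 s)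
    rw [this]
    exact ih _

theorem cd_sg_pow (c : Cd) (m : ℕ) (s : ℕ → M0) :
    c.ev O0 (fun v => (sg ^ m) (s v)) ↔ c.ev O0 s := by
  induction m with
  | zero => simp
  | succ m ih =>
    have : (fun v => (sg ^ (m + 1)) (s v)) = fun v => sg ((sg ^ m) (s v)) := by
      funext v; rw [pow_succ', Equiv.Perm.mul_apply]
    rw [this, cd_sg, ih]

theorem sc_sg_pow (i : ℕ) (m : ℕ) (A : Finset M0) :
    sc i (A.map (sg ^ m).toEmbedding) = (sg ^ m) (sc i A) := by
  induction m with
  | zero =>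
    rw [pow_zero, show ((1 : Equiv.Perm M0).toEmbedding) = Function.Embedding.refl _ from rfl,
      Finset.map_refl]; rfl
  | succ m ih =>
    rw [pow_succ', Equiv.Perm.mul_apply, ← ih, ← sc_sg, Finset.map_map]
    rfl

/-! ### the failing instance -/

/-- `x` codes the pair `{y, tw y}`; variable `1` is `x`, variable `2` is `y` -/
def bc : Cd := .all 3 (.iff (.mm 0 (.var 3) (.var 1)) (.or (.eq (.var 3) (.var 2))
  (.eq (.var 3) (.tw (.var 2)))))


theorem ev_bc (O : Ops M) (s : ℕ → M) :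
    bc.ev O s ↔ ∀ w, O.mm 0 w (s 1) ↔ (w = s 2 ∨ w = O.tw (s 2)) := by
  unfold bc
  rw [ev_all]
  apply forall_congr'
  intro w
  rw [ev_iff, ev_or]
  show (O.mm 0 _ _ ↔ (_ = _ ∨ _ = _)) ↔ _
  simp [Tr.ev]

/-- no definable selector in `M0` -/
theorem no_selector (c : Cd) (p : M0) :
    ¬ ∀ x : M0, (∃ y, ∀ w, DeltaBLNotChoice.mm 0 w x ↔ (w = y ∨ w = DeltaBLNotChoice.tw y)) →
      ∃ y, (∀ w, DeltaBLNotChoice.mm 0 w x ↔ (w = y ∨ w = DeltaBLNotChoice.tw y)) ∧
        ∀ w, c.ev O0 (asg (n := 1) p ![x, w]) ↔ w = y := by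
  classical
  intro h
  set m := p.2.1 with hm
  let y : M0 := (0, ⟨m + 1, 0⟩)
  have hτ : ∀ z : M0, (sg ^ (2 ^ m)) z = (z.1, ⟨z.2.1, z.2.2 + ((2 ^ m : ℕ) : ZMod _)⟩) :=
    fun z => sg_pow _ z
  have hp : (sg ^ (2 ^ m)) p = p := sg_periodic p
  have hy1 : (sg ^ (2 ^ m)) y = DeltaBLNotChoice.tw y := by
    rw [hτ]; rfl
  have htwo : (((2 ^ m : ℕ) : ZMod (2 ^ (m + 1))) + ((2 ^ m : ℕ) : ZMod (2 ^ (m + 1)))) = 0 := by
    rw [← Nat.cast_add, ← two_mul, ← pow_succ']
    exact ZMod.natCast_self _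
  have hy2 : (sg ^ (2 ^ m)) (DeltaBLNotChoice.tw y) = y := by
    rw [← hy1, hτ, hτ]
    show ((0, ⟨m + 1, 0 + ((2 ^ m : ℕ) : ZMod (2 ^ (m + 1))) + ((2 ^ m : ℕ) : ZMod (2 ^ (m + 1)))⟩)
      : M0) = (0, ⟨m + 1, 0⟩)
    rw [add_assoc, htwo, add_zero]
  have hne : ∀ z : M0, z.2.1 = m + 1 → (sg ^ (2 ^ m)) z ≠ z := by
    rintro ⟨j, n, a⟩ hz heq
    simp only at hz
    subst hz
    rw [hτ] at heq
    have h1 : a + ((2 ^ m : ℕ) : ZMod (2 ^ (m + 1))) = a := by
      have := congrArg Prod.snd heq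
      simpa using this
    have h2 : ((2 ^ m : ℕ) : ZMod (2 ^ (m + 1))) = 0 := by
      simpa using h1
    rw [ZMod.natCast_eq_zero_iff] at h2
    have h3 := Nat.le_of_dvd (by positivity) h2
    have h4 : 2 ^ m < 2 ^ (m + 1) := Nat.pow_lt_pow_right (by norm_num) (Nat.lt_succ_self m)
    omega
  let x : M0 := sc 0 {y, DeltaBLNotChoice.tw y}
  have hx : (sg ^ (2 ^ m)) x = x := by
    show (sg ^ (2 ^ m)) (sc 0 {y, DeltaBLNotChoice.tw y}) = sc 0 {y, DeltaBLNotChoice.tw y}
    rw [← sc_sg_pow]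
    congr 1
    rw [Finset.map_insert, Finset.map_singleton]
    simp only [Equiv.coe_toEmbedding]
    rw [hy1, hy2, Finset.pair_comm]
  have hxy : ∀ w, DeltaBLNotChoice.mm 0 w x ↔ (w = y ∨ w = DeltaBLNotChoice.tw y) := by
    intro w
    show DeltaBLNotChoice.mm 0 w (sc 0 {y, DeltaBLNotChoice.tw y}) ↔ _
    rw [mm_sc]; simp
  obtain ⟨y', hy', hsel⟩ := h x ⟨y, hxy⟩
  have hy'mem : y' = y ∨ y' = DeltaBLNotChoice.tw y := (hxy y').mp ((hy' y').mpr (Or.inl rfl))
  have hlev : y'.2.1 = m + 1 := by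
    rcases hy'mem with h | h
    · rw [h]
    · rw [h]; rfl
  have h1 : c.ev O0 (asg (n := 1) p ![x, y']) := (hsel y').mpr rfl
  rw [← cd_sg_pow c (2 ^ m)] at h1
  have h2 : (fun v => (sg ^ (2 ^ m)) (asg (n := 1) p ![x, y'] v)) =
      asg (n := 1) p ![x, (sg ^ (2 ^ m)) y'] := by
    funext v
    unfold asg
    by_cases hv : 0 < v ∧ v - 1 < 1 + 1
    · rw [dif_pos hv, dif_pos hv]
      rcases v with _ | _ | _ | v
      · omega
      · exact hx
      · rfl
      · omega
    · rw [dif_neg hv, dif_neg hv]; exact hp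
  rw [h2] at h1
  exact hne y' hlev ((hsel _).mp h1)

/-- existential object quantifier -/
def exO (i : ℕ) (φ : Fm) : Fm := .neg (.all i (.neg φ))
def fimp (φ ψ : Fm) : Fm := .neg (.and φ (.neg ψ))
def fiff (φ ψ : Fm) : Fm := .and (fimp φ ψ) (fimp ψ φ)

theorem sat_exO (B : BLStr) (i : ℕ) (φ : Fm) (e : ℕ → B.M) (ρ : B.RAsg) :
    B.Sat (exO i φ) e ρ ↔ ∃ x, B.Sat φ (Function.update e i x) ρ := by
  show ¬ (∀ x, ¬ B.Sat φ (Function.update e i x) ρ) ↔ _
  push Not; rfl
theorem sat_fimp (B : BLStr) (φ ψ : Fm) (e : ℕ → B.M) (ρ : B.RAsg) :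
    B.Sat (fimp φ ψ) e ρ ↔ (B.Sat φ e ρ → B.Sat ψ e ρ) := by
  show ¬ (B.Sat φ e ρ ∧ ¬ B.Sat ψ e ρ) ↔ _
  tauto
theorem sat_fiff (B : BLStr) (φ ψ : Fm) (e : ℕ → B.M) (ρ : B.RAsg) :
    B.Sat (fiff φ ψ) e ρ ↔ (B.Sat φ e ρ ↔ B.Sat ψ e ρ) := by
  show B.Sat (fimp φ ψ) e ρ ∧ B.Sat (fimp ψ φ) e ρ ↔ _
  rw [sat_fimp, sat_fimp]; tauto

/-- `B(x_0,x_1)` -/
def fB : Fm := .rel 1 0 ![.var 0, .var 1]
/-- the formula: if `∃ y B(x,y)` then `P = {y}` for some `y` with `B(x,y)` -/
def fC : Fm := fimp (exO 1 fB) (exO 1 (.and fB (.all 2 (fiff (.rel 0 0 ![.var 2])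
  (.eq (.var 2) (.var 1))))))

theorem fC_arith : IsArith fC := by
  simp [fC, fB, fimp, exO, fiff, IsArith]

theorem sat_fC (e : ℕ → N) (ρ : NN.RAsg) :
    NN.Sat fC e ρ ↔ ((∃ y : N, ![e 0, y] ∈ (ρ 1 0).1) →
      ∃ y : N, ![e 0, y] ∈ (ρ 1 0).1 ∧ ∀ w : N, ![w] ∈ (ρ 0 0).1 ↔ w = y) := by
  have hB : ∀ e' : ℕ → N, NN.Sat fB e' ρ ↔ ![e' 0, e' 1] ∈ (ρ 1 0).1 := by
    intro e'
    show (fun k => NN.val e' ρ ((![Tm.var 0, Tm.var 1] : Fin 2 → Tm) k)) ∈ (ρ 1 0).1 ↔ _
    have : (fun k => NN.val e' ρ ((![Tm.var 0, Tm.var 1] : Fin 2 → Tm) k)) = ![e' 0, e' 1] := by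
      funext k
      fin_cases k <;> rfl
    rw [this]
  have hP : ∀ e' : ℕ → N, NN.Sat (.rel 0 0 ![.var 2]) e' ρ ↔ ![e' 2] ∈ (ρ 0 0).1 := by
    intro e'
    show (fun k => NN.val e' ρ ((![Tm.var 2] : Fin 1 → Tm) k)) ∈ (ρ 0 0).1 ↔ _
    have : (fun k => NN.val e' ρ ((![Tm.var 2] : Fin 1 → Tm) k)) = ![e' 2] := by
      funext k
      fin_cases k; rfl
    rw [this]
  unfold fC
  rw [sat_fimp, sat_exO, sat_exO]
  have h1 : ∀ x : N, NN.Sat (.and fB (.all 2 (fiff (.rel 0 0 ![.var 2])
      (.eq (.var 2) (.var 1))))) (Function.update e 1 x) ρ ↔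
      (![e 0, x] ∈ (ρ 1 0).1 ∧ ∀ w : N, ![w] ∈ (ρ 0 0).1 ↔ w = x) := by
    intro x
    show NN.Sat fB _ ρ ∧ (∀ w : N, NN.Sat (fiff _ _) _ ρ) ↔ _
    rw [hB]
    simp only [sat_fiff, hP]
    have h2 : ∀ w : N, NN.Sat (.eq (.var 2) (.var 1))
        (Function.update (Function.update e 1 x) 2 w) ρ ↔ w = x := by
      intro w
      show Function.update (Function.update e 1 x) 2 w 2 =
        Function.update (Function.update e 1 x) 2 w 1 ↔ _
      simp
    simp only [h2]
    simp
  simp only [h1, hB]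
  simp

theorem NN_not_choice : ¬ NN.SigmaChoice := by
  classical
  intro hch
  obtain ⟨iB, hiB⟩ := cd_surj bc
  let p₀ : N := ((fun _ => (0, ⟨0, 0⟩) : ℕ → M0) : N)
  let RB : NN.Rel 1 := ⟨{a | (cd iB).ev ON (asg p₀ a)}, ⟨_, _, rfl⟩⟩
  have hRB : ∀ x y : N, ![x, y] ∈ RB.1 ↔ ∀ w : N, ON.mm 0 w x ↔ (w = y ∨ w = ON.tw y) := by
    intro x y
    show (cd iB).ev ON (asg p₀ ![x, y]) ↔ _
    rw [hiB, ev_bc]
    rfl
  let ρ : NN.RAsg := NN.upd (ra (fun _ _ => 0) (fun _ => p₀)) 1 0 RB
  have hρ : ∀ P : NN.Rel 0, (NN.upd ρ 0 0 P) 1 0 = RB := by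
    intro P
    simp [ρ, BLStr.upd]
  have hρ' : ∀ P : NN.Rel 0, (NN.upd ρ 0 0 P) 0 0 = P := by
    intro P
    simp [BLStr.upd]
  have hext : ∀ a : Fin 1 → N, Function.extend (![0] : Fin 1 → ℕ) a (fun _ => p₀) 0 = a 0 := by
    intro a
    have hinj : Function.Injective (![0] : Fin 1 → ℕ) := fun a b _ => Subsingleton.elim a b
    exact hinj.extend_apply a _ 0
  have hprem : ∀ a : Fin 1 → N, ∃ P : NN.Rel 0,
      NN.Sat fC (Function.extend (![0] : Fin 1 → ℕ) a (fun _ => p₀)) (NN.upd ρ 0 0 P) := by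
    intro a
    by_cases h : ∃ y : N, ![a 0, y] ∈ RB.1
    · obtain ⟨y, hy⟩ := h
      obtain ⟨i, hi⟩ := cd_surj (.eq (.var 1) (.var 0))
      refine ⟨⟨{b | (cd i).ev ON (asg y b)}, ⟨_, _, rfl⟩⟩, ?_⟩
      rw [sat_fC, hρ, hρ', hext]
      intro _
      refine ⟨y, hy, fun w => ?_⟩
      show (cd i).ev ON (asg y ![w]) ↔ _
      rw [hi]
      show asg y ![w] 1 = asg y ![w] 0 ↔ _
      rfl
    · refine ⟨⟨{b | (cd 0).ev ON (asg p₀ b)}, ⟨_, _, rfl⟩⟩, ?_⟩
      rw [sat_fC, hρ, hext]
      intro h'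
      exact absurd h' h
  obtain ⟨R, ⟨i, p, rfl⟩, hR⟩ := hch fC (.arith fC_arith) 0 0 0 ![0]
    (fun a b _ => Subsingleton.elim (α := Fin 1) a b) (fun _ => p₀) ρ hprem
  -- the selector property in the ultrapower
  have hsel : ∀ x : N, (∃ y : N, ∀ w : N, ON.mm 0 w x ↔ (w = y ∨ w = ON.tw y)) →
      ∃ y : N, (∀ w : N, ON.mm 0 w x ↔ (w = y ∨ w = ON.tw y)) ∧
        ∀ w : N, (cd i).ev ON (asg (n := 1) p ![x, w]) ↔ w = y := by
    intro x hx
    -- the section at `x`
    obtain ⟨j, q, hjq⟩ := pack (cd i) (n := 0) ![2]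
      (fun a b _ => Subsingleton.elim (α := Fin 1) a b) (asg (n := 1) p ![x, x])
    have hsec : ∀ b : Fin 1 → N, (cd j).ev ON (asg q b) ↔
        (cd i).ev ON (asg (n := 1) p ![x, b 0]) := by
      intro b
      rw [hjq]
      have : Function.extend (![2] : Fin 1 → ℕ) b (asg (n := 1) p ![x, x]) =
          asg (n := 1) p ![x, b 0] := by
        funext v
        by_cases hv : v = 2
        · subst hv
          have hinj : Function.Injective (![2] : Fin 1 → ℕ) := fun a b _ => Subsingleton.elim a b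
          exact hinj.extend_apply b _ 0
        · rw [Function.extend_apply' _ _ _ (by
            rintro ⟨k, hk⟩
            apply hv
            rw [← hk]
            fin_cases k; rfl)]
          unfold asg
          by_cases hv2 : 0 < v ∧ v - 1 < 1 + 1
          · rw [dif_pos hv2, dif_pos hv2]
            have : v = 1 := by omega
            subst this
            rfl
          · rw [dif_neg hv2, dif_neg hv2]
      rw [this]
    let P : NN.Rel 0 := ⟨{b | (cd j).ev ON (asg q b)}, ⟨_, _, rfl⟩⟩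
    have hP := hR ![x] P (by
      intro b
      show (cd j).ev ON (asg q b) ↔ (cd i).ev ON (asg p (Fin.append ![x] b))
      rw [hsec]
      have : Fin.append ![x] b = ![x, b 0] := by
        funext k
        fin_cases k
        · rfl
        · rfl
      rw [← this])
    rw [sat_fC, hρ, hρ', hext] at hP
    obtain ⟨y, hy1, hy2⟩ := hP (by
      obtain ⟨y, hy⟩ := hx
      exact ⟨y, (hRB _ _).mpr hy⟩)
    refine ⟨y, (hRB _ _).mp hy1, fun w => ?_⟩
    rw [← hy2 w]
    show _ ↔ (cd j).ev ON (asg q ![w])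
    rw [hsec]; rfl
  -- transfer to `M0`
  let ci : Cd := .sub (.var 0) [.var 0, .var 1, .var 3] (cd i)
  let χ : Cd := .all 1 (.imp (.ex 2 bc) (.ex 2 (.and bc (.all 3 (.iff ci (.eq (.var 3) (.var 2)))))))
  have hχ : ∀ {M : Type} (O : Ops M) (s : ℕ → M), χ.ev O s ↔ ∀ x : M,
      (∃ y : M, ∀ w, O.mm 0 w x ↔ (w = y ∨ w = O.tw y)) →
      ∃ y : M, (∀ w, O.mm 0 w x ↔ (w = y ∨ w = O.tw y)) ∧
        ∀ w : M, (cd i).ev O (asg (n := 1) (s 0) ![x, w]) ↔ w = y := by
    intro M O s
    show (Cd.all 1 _).ev O s ↔ _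
    rw [ev_all]
    apply forall_congr'
    intro x
    rw [ev_imp]
    have e1 : ∀ y : M, bc.ev O (Function.update (Function.update s 1 x) 2 y) ↔
        ∀ w, O.mm 0 w x ↔ (w = y ∨ w = O.tw y) := by
      intro y; rw [ev_bc]; simp
    have e2 : ∀ y w : M, ci.ev O (Function.update (Function.update (Function.update s 1 x) 2 y) 3 w)
        ↔ (cd i).ev O (asg (n := 1) (s 0) ![x, w]) := by
      intro y w
      show (cd i).ev O _ ↔ _
      have : (fun v => (([.var 0, .var 1, .var 3] : List Tr).getD v (.var 0)).ev O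
          (Function.update (Function.update (Function.update s 1 x) 2 y) 3 w)) =
          asg (n := 1) (s 0) ![x, w] := by
        funext v
        rcases v with _ | _ | _ | v
        · rfl
        · rfl
        · rfl
        · show (Tr.var 0).ev O _ = _
          unfold asg
          rw [dif_neg (by omega)]
          rfl
      rw [this]
    show ((∃ y, bc.ev O _) → ∃ y, bc.ev O _ ∧ (Cd.all 3 _).ev O _) ↔ _
    simp only [ev_all, ev_iff, e1, e2]
    have e3 : ∀ y w : M, (Cd.eq (.var 3) (.var 2)).ev O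
        (Function.update (Function.update (Function.update s 1 x) 2 y) 3 w) ↔ w = y := by
      intro y w
      show _ = _ ↔ _
      simp [Tr.ev]
    simp only [e3]
  have h1 : χ.ev ON (fun _ => p) := by
    rw [hχ]; exact hsel
  rw [los] at h1
  obtain ⟨n, hn⟩ := h1.exists
  rw [hχ] at hn
  exact no_selector (cd i) (lf p n) hn

/-- **Main theorem**: some structure satisfies Basic Law V, arithmetical comprehension and
`Δ¹₁`-comprehension, but not `Σ¹₁`-choice. -/
theorem result : ∃ B : BLStr, B.BasicLawV ∧ B.ArithComprehension ∧ B.DeltaComprehension ∧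
    ¬ B.SigmaChoice :=
  ⟨NN, NN_basicLawV, NN_arith, NN_delta, NN_not_choice⟩

end

end Pool.Agent.Results.MP_4cf54b_lc.DeltaBLNotChoice
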